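import Mathlib
import Pool.Agent.H.MP_424fb5_gt.A

set_option autoImplicit false
open Set Relation Pool.Agent.H.MP_424fb5_gt

namespace Pool.Agent.H.MP_321614_gt

abbrev A := List ℕ

inductive S
  | lf (a : A)
  | ct (s t : S)
  | an (a : A) (r : ℕ → S)

open S

def fs : S → A
  | ct s _ => 0 :: fs s
  | _ => []

def ls : S → A
  | ct _ t => 1 :: ls t
  | _ => []

def kid : S → ℕ → S
  | lf a, _ => lf a
  | ct s _, 0 => s
  | ct _ t, _ + 1 => t
  | an _ r, i => r i

def ok : S → ℕ → Prop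
  | lf _, _ => False
  | ct _ _, i => i = 0 ∨ i = 1
  | an _ _, i => i < 3

def rt : S → Prop
  | ct _ _ => False
  | _ => True

def V : S → A → Prop
  | s, [] => rt s
  | s, i :: v => ok s i ∧ V (kid s i) v

def rl : S → A
  | lf a => a
  | ct _ _ => []
  | an a _ => a

def lab : S → A → A
  | s, [] => rl s
  | s, i :: v => lab (kid s i) v

def pt : S → ℕ → A
  | ct s _, 0 => ls s
  | s, i => fs (kid s i)

def ob : S → ℕ → A
  | ct _ t, 0 => 1 :: fs t
  | ct s _, _ + 1 => 0 :: ls s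
  | _, _ => []

inductive Ad : S → A → A → Prop
  | rf {s} : rt s → Ad s [] []
  | j {s i} : ok s i → Ad s (ob s i) (i :: pt s i)
  | j' {s i} : ok s i → Ad s (i :: pt s i) (ob s i)
  | c {s i u w} : ok s i → Ad (kid s i) u w → Ad s (i :: u) (i :: w)

lemma S.ind (P : S → Prop) (h : ∀ s, (∀ i, ok s i → P (kid s i)) → P s) (s : S) : P s := by
  induction s with
  | lf a => exact h _ fun _ k => k.elim
  | ct s t i1 i2 =>
    refine h _ ?_
    rintro _ (rfl | rfl)
    exacts [i1, i2]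
  | an a r ih => exact h _ fun i _ => ih i

lemma V_fs (s : S) : V s (fs s) := by
  induction s with
  | ct s t i1 _ => exact ⟨Or.inl rfl, i1⟩
  | _ => trivial

lemma V_ls (s : S) : V s (ls s) := by
  induction s with
  | ct s t _ i2 => exact ⟨Or.inr rfl, i2⟩
  | _ => trivial

lemma V_pt (s : S) (i : ℕ) : V (kid s i) (pt s i) := by
  rcases s with _ | _ | _ <;> rcases i with _ | _ <;> first | exact V_ls _ | exact V_fs _

lemma V_ob {s : S} {i : ℕ} (h : ok s i) : V s (ob s i) := by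
  rcases s with _ | _ | _
  · trivial
  · rcases h with rfl | rfl
    exacts [⟨Or.inr rfl, V_fs _⟩, ⟨Or.inl rfl, V_ls _⟩]
  · trivial

lemma Ad.sy {s u w} (h : Ad s u w) : Ad s w u := by
  induction h with
  | rf h => exact .rf h
  | j h => exact .j' h
  | j' h => exact .j h
  | c h _ ih => exact .c h ih

lemma Ad.mem {s u w} (h : Ad s u w) : V s u := by
  induction h with
  | rf h => exact h
  | j h => exact V_ob h
  | j' h => exact ⟨h, V_pt _ _⟩
  | c h _ ih => exact ⟨h, ih⟩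

lemma V.rf {s u} (h : V s u) : Ad s u u := by
  induction u generalizing s with
  | nil => exact .rf h
  | cons i u ih => exact .c h.1 (ih h.2)

lemma ob_ne {s i} (h : ok s i) (w : A) : ob s i ≠ i :: w := by
  rcases s with _ | _ | _
  · simp [ob]
  · rcases h with rfl | rfl <;> simp [ob]
  · simp [ob]

lemma ob_ob {s k i u} (h : ok s k) (e : ob s k = i :: u) :
    u = pt s i ∧ k :: pt s k = ob s i := by
  rcases s with _ | _ | _
  · exact h.elim
  · rcases h with rfl | rfl <;> cases e <;> exact ⟨rfl, rfl⟩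
  · cases e

lemma Ad.inv {s i u x} (h : Ad s (i :: u) x) :
    (∃ w, x = i :: w ∧ Ad (kid s i) u w) ∨ (u = pt s i ∧ x = ob s i) := by
  generalize e : i :: u = y at h
  cases h with
  | rf => cases e
  | j h => exact Or.inr (ob_ob h e.symm)
  | j' h => cases e; exact Or.inr ⟨rfl, rfl⟩
  | c h k => cases e; exact Or.inl ⟨_, rfl, k⟩

lemma Ad.inv0 {s x} (h : Ad s [] x) : x = [] ∨ ∃ i, ok s i ∧ x = i :: pt s i ∧ ob s i = [] := by
  generalize e : ([] : A) = y at h
  cases h with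
  | rf => exact Or.inl e
  | j h => exact Or.inr ⟨_, h, rfl, rfl⟩
  | j' h => cases e
  | c h k => cases e

def Co (s : S) (L : Set A) : Prop := Cn (Ad s) L ∧ ∀ x ∈ L, V s x

def dv (L : Set A) (i : ℕ) : Set A := {w | i :: w ∈ L}

lemma Co.out {s L i u x} (h : Co s L) (hu : u ∈ dv L i) (hx : x ∈ L) (n : ∀ w, x ≠ i :: w) :
    pt s i ∈ dv L i ∧ ob s i ∈ L := by
  by_contra k
  obtain ⟨w, e⟩ := h.1.ind (fun y => ∃ w, y = i :: w) (by
    rintro _ ha b hb l ⟨w, rfl⟩
    rcases l.inv with ⟨v, e, -⟩ | ⟨rfl, rfl⟩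
    exacts [⟨v, e⟩, (k ⟨ha, hb⟩).elim]) hu hx ⟨u, rfl⟩
  exact n w e

lemma Co.dv {s L} (h : Co s L) (i : ℕ) : Co (kid s i) (dv L i) := by
  classical
  refine ⟨fun u hu => ?_, fun x hx => (h.2 _ hx).2⟩
  let ρ : A → A := fun x => if x.head? = some i then x.tail else pt s i
  have r1 : ∀ w, ρ (i :: w) = w := fun w => if_pos rfl
  have r2 : ∀ x, (∀ w, x ≠ i :: w) → ρ x = pt s i := fun x k => if_neg fun e => by
    rcases x with _ | ⟨j, x⟩ <;> cases e
    exact k x rfl
  have e : ρ '' L = MP_321614_gt.dv L i := by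
    refine subset_antisymm ?_ fun w hw => ⟨_, hw, r1 w⟩
    rintro _ ⟨x, hx, rfl⟩
    by_cases k : ∀ w, x ≠ i :: w
    · rw [r2 x k]; exact (h.out hu hx k).1
    · push Not at k
      obtain ⟨w, rfl⟩ := k
      rwa [r1]
  have one : ∀ w b, Ad s (i :: w) b → Ad (kid s i) w (ρ b) := fun w b l => by
    rcases l.inv with ⟨v, rfl, k⟩ | ⟨rfl, rfl⟩
    · rwa [r1]
    · rw [r2 _ (ob_ne l.mem.1)]; exact (V_pt _ _).rf
  refine (e ▸ h.1.image ρ fun a b l => ?_) u hu
  by_cases k : ∀ w, a ≠ i :: w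
  · by_cases k' : ∀ w, b ≠ i :: w
    · rw [r2 a k, r2 b k']; exact (V_pt _ _).rf
    · push Not at k'
      obtain ⟨w, rfl⟩ := k'
      rw [r1]; exact (one w a l.sy).sy
  · push Not at k
    obtain ⟨w, rfl⟩ := k
    rw [r1]; exact one w b l

lemma Co.jn {s t L u w} (h : Co (ct s t) L) (hu : u ∈ MP_321614_gt.dv L 0)
    (hw : w ∈ MP_321614_gt.dv L 1) : ls s ∈ MP_321614_gt.dv L 0 ∧ fs t ∈ MP_321614_gt.dv L 1 :=
  h.out hu hw (by simp)

lemma V.ct {s t v} (h : V (ct s t) v) : (∃ w, v = 0 :: w ∧ V s w) ∨ ∃ w, v = 1 :: w ∧ V t w := by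
  rcases v with _ | ⟨i, v⟩
  · exact h.elim
  · rcases h with ⟨rfl | rfl, h⟩
    exacts [Or.inl ⟨_, rfl, h⟩, Or.inr ⟨_, rfl, h⟩]

lemma V.lf {a v} (h : V (lf a) v) : v = [] := by
  rcases v with _ | ⟨i, v⟩
  exacts [rfl, h.1.elim]

def Fu (s : S) (L : Set A) : Prop := Co s L ∧ fs s ∈ L ∧ ls s ∈ L

lemma Fu.l {s t L} (h : Fu (ct s t) L) : Fu s (dv L 0) :=
  ⟨h.1.dv 0, h.2.1, (h.1.jn h.2.1 h.2.2).1⟩

lemma Fu.r {s t L} (h : Fu (ct s t) L) : Fu t (dv L 1) :=
  ⟨h.1.dv 1, (h.1.jn h.2.1 h.2.2).2, h.2.2⟩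

lemma cn_ctr {α : Type} {R : α → α → Prop} {X : Set α} (c : α)
    (h : ∀ x ∈ X, ∃ T ⊆ X, Cn R T ∧ x ∈ T ∧ c ∈ T) : Cn R X := fun x hx y hy => by
  obtain ⟨T, t1, t2, t3, t4⟩ := h x hx
  obtain ⟨U, u1, u2, u3, u4⟩ := h y hy
  exact ((t2 x t3 c t4).lift id fun a b l => ⟨t1 l.1, t1 l.2.1, l.2.2⟩).trans
    ((u2 c u4 y u3).lift id fun a b l => ⟨u1 l.1, u1 l.2.1, l.2.2⟩)

lemma cn_ins {α : Type} {R : α → α → Prop} {X : Set α} (h : Cn R X) {c x : α} (hx : x ∈ X)
    (k1 : R c x) (k2 : R x c) : Cn R (insert c X) := by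
  have m : ∀ a ∈ X, ∀ b ∈ X, ReflTransGen (fun a b => a ∈ insert c X ∧ b ∈ insert c X ∧ R a b)
      a b := fun a ha b hb => (h a ha b hb).lift id fun a b l => ⟨Or.inr l.1, Or.inr l.2.1, l.2.2⟩
  rintro a (rfl | ha) b (rfl | hb)
  · rfl
  · exact .head ⟨Or.inl rfl, Or.inr hx, k1⟩ (m x hx b hb)
  · exact .tail (m a ha x hx) ⟨Or.inr hx, Or.inl rfl, k2⟩
  · exact m a ha b hb

def Ar (s : S) (i : ℕ) : Set A := insert (ob s i) ((i :: ·) '' {w | V (kid s i) w})

lemma Ar_V {s i} (h : ok s i) : Ar s i ⊆ {v | V s v} := by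
  rintro _ (rfl | ⟨w, hw, rfl⟩)
  exacts [V_ob h, ⟨h, hw⟩]

lemma Ar_cn' {s i} (h : ok s i) (k : Cn (Ad (kid s i)) {w | V (kid s i) w}) :
    Cn (Ad s) (Ar s i) :=
  cn_ins (k.image _ fun _ _ l => .c h l) ⟨_, V_pt s i, rfl⟩ (.j h) (.j' h)

lemma V_cn (s : S) : Cn (Ad s) {v | V s v} := by
  induction s with
  | lf a => intro x hx y hy; rw [V.lf hx, V.lf hy]
  | ct s t i1 i2 =>
    refine cn_ctr (0 :: ls s) fun x hx => ?_
    rcases V.ct hx with ⟨w, rfl, h⟩ | ⟨w, rfl, h⟩
    · exact ⟨_, Ar_V (Or.inl rfl), Ar_cn' (Or.inl rfl) i1, Or.inr ⟨w, h, rfl⟩,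
        Or.inr ⟨_, V_ls s, rfl⟩⟩
    · exact ⟨_, Ar_V (Or.inr rfl), Ar_cn' (Or.inr rfl) i2, Or.inr ⟨w, h, rfl⟩, Or.inl rfl⟩
  | an a r ih =>
    refine cn_ctr [] fun x hx => ?_
    rcases x with _ | ⟨i, w⟩
    · exact ⟨_, Ar_V (i := 0) (show 0 < 3 by omega), Ar_cn' (show 0 < 3 by omega) (ih 0),
        Or.inl rfl, Or.inl rfl⟩
    · exact ⟨_, Ar_V hx.1, Ar_cn' hx.1 (ih i), Or.inr ⟨w, hx.2, rfl⟩, Or.inl rfl⟩

lemma V_fin (s : S) : {v | V s v}.Finite := by
  induction s using S.ind with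
  | h s ih =>
    have : {i | ok s i}.Finite := (finite_lt_nat 3).subset fun i hi => by
      rcases s with _ | _ | _
      · exact hi.elim
      · rcases hi with rfl | rfl <;> simp
      · exact hi
    refine ((this.biUnion fun i hi => (ih i hi).image (i :: ·)).insert []).subset ?_
    rintro (_ | ⟨i, w⟩) h
    exacts [Or.inl rfl, Or.inr (mem_biUnion h.1 ⟨w, h.2, rfl⟩)]

inductive Sd
  | c (x : Bool)
  | b
  | r (i : ℕ)
  deriving DecidableEq

def isL : S → ℕ → Bool
  | ct _ _, 0 => true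
  | _, _ => false

def side : S → A → A → Sd
  | _, [], [] => .b
  | _, [], i :: _ => .r i
  | _, _ :: _, [] => .c false
  | s, i :: p, j :: w => if j = i then side (kid s i) p w else
      .c (isL s i && decide (side (kid s i) p (ls (kid s i)) ≠ .c false))

def isA : S → Prop
  | an _ _ => True
  | _ => False

def At : S → A → Prop
  | s, [] => isA s
  | s, i :: p => ok s i ∧ At (kid s i) p

def sub : S → A → S
  | s, [] => s
  | s, i :: p => sub (kid s i) p

@[simp] lemma side_c (s i p w) : side s (i :: p) (i :: w) = side (kid s i) p w := if_pos rfl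

lemma side_n (s : S) {i j : ℕ} (p w) (h : j ≠ i) : side s (i :: p) (j :: w) =
    .c (isL s i && decide (side (kid s i) p (ls (kid s i)) ≠ .c false)) := if_neg h

lemma side_app (s p w) : side s p (p ++ w) = side (sub s p) [] w := by
  induction p generalizing s with
  | nil => rfl
  | cons i p ih => rw [List.cons_append, side_c, ih]; rfl

lemma side_y {s p v} (h : ∀ x, side s p v ≠ .c x) : ∃ w, v = p ++ w := by
  induction p generalizing s v with
  | nil => exact ⟨v, rfl⟩
  | cons i p ih =>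
    rcases v with _ | ⟨j, v⟩
    · exact (h _ rfl).elim
    by_cases e : j = i
    · subst e
      obtain ⟨w, rfl⟩ := ih (s := kid s j) (v := v) (by simpa using h)
      exact ⟨w, rfl⟩
    · exact (h _ (side_n s p v e)).elim

lemma side_fs {s p} (h : At s p) : side s p (fs s) = .c false ∨ fs s = p := by
  induction p generalizing s with
  | nil => rcases s with _ | _ | _ <;> first | exact h.elim | exact Or.inr rfl
  | cons i p ih =>
    rcases s with _ | _ | _
    · exact Or.inl rfl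
    · rcases h with ⟨rfl | rfl, h⟩
      · exact (ih h).imp (side_c _ _ _ _).trans (congrArg _)
      · exact Or.inl rfl
    · exact Or.inl rfl

lemma side_ls {s p} (h : At s p) : (∃ x, side s p (ls s) = .c x) ∨ ls s = p := by
  induction p generalizing s with
  | nil => rcases s with _ | _ | _ <;> first | exact h.elim | exact Or.inr rfl
  | cons i p ih =>
    rcases s with _ | _ | _
    · exact Or.inl ⟨_, rfl⟩
    · rcases h with ⟨rfl | rfl, h⟩
      · exact Or.inl ⟨_, rfl⟩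
      · exact (ih h).imp (fun ⟨x, k⟩ => ⟨x, (side_c _ _ _ _).trans k⟩) (congrArg _)
    · exact Or.inl ⟨_, rfl⟩

lemma side_j {s p k} (h : At s p) (hk : ok s k) :
    side s p (ob s k) = side s p (k :: pt s k) ∨ ob s k = p ∨ k :: pt s k = p := by
  rcases p with _ | ⟨i, p⟩
  · rcases s with _ | _ | _ <;> first | exact h.elim | exact Or.inr (Or.inl rfl)
  have l : ∀ s t : S, At s p → side (ct s t) (0 :: p) (1 :: fs t) = side s p (ls s) ∨ ls s = p :=
    fun s t h => (side_ls h).imp_left fun ⟨x, k⟩ => by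
      rw [side_n _ _ _ one_ne_zero]
      cases x <;> simp [isL, kid, k]
  have r : ∀ s t : S, At t p → side (ct s t) (1 :: p) (0 :: ls s) = side t p (fs t) ∨ fs t = p :=
    fun s t h => (side_fs h).imp_left fun k => Eq.trans rfl (Eq.symm k)
  rcases s with _ | ⟨s, t⟩ | ⟨a, r⟩
  · exact hk.elim
  · rcases h with ⟨rfl | rfl, h⟩ <;> rcases hk with rfl | rfl
    · exact (l s t h).imp (·.trans (side_c (ct s t) 0 _ _).symm) fun e => Or.inr (congrArg _ e)
    · exact (l s t h).imp (fun e => (side_c _ _ _ _).trans e.symm) fun e => Or.inl (congrArg _ e)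
    · exact (r s t h).imp (fun e => (side_c _ _ _ _).trans e.symm) fun e => Or.inl (congrArg _ e)
    · exact (r s t h).imp (·.trans (side_c (ct s t) 1 _ _).symm) fun e => Or.inr (congrArg _ e)
  · by_cases e : k = i
    · subst e
      exact (side_fs h.2).imp (fun e => e.symm.trans (side_c _ _ _ _).symm)
        fun e => Or.inr (congrArg _ e)
    · exact Or.inl (side_n (an a r) p _ e).symm

lemma side_ad {s p u w} (h : At s p) (k : Ad s u w) :
    side s p u = side s p w ∨ u = p ∨ w = p := by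
  induction k generalizing p with
  | rf => exact Or.inl rfl
  | j k => exact side_j h k
  | j' k => exact (side_j h k).imp Eq.symm Or.symm
  | @c s i u w k _ ih =>
    rcases p with _ | ⟨j, p⟩
    · exact Or.inl rfl
    by_cases e : i = j
    · subst e
      simpa using ih h.2
    · exact Or.inl ((side_n s p u e).trans (side_n s p w e).symm)

lemma lab_app (s p w) : lab s (p ++ w) = lab (sub s p) w := by
  induction p generalizing s with
  | nil => rfl
  | cons i p ih => exact ih _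

lemma At.ad {s p u w} (h : At s p) (k : Ad (sub s p) u w) : Ad s (p ++ u) (p ++ w) := by
  induction p generalizing s with
  | nil => exact k
  | cons i p ih => exact .c h.1 (ih h.2 k)

lemma At.isA {s p} (h : At s p) : ∃ a r, sub s p = an a r := by
  induction p generalizing s with
  | nil => rcases s with _ | _ | _ <;> first | exact h.elim | exact ⟨_, _, rfl⟩
  | cons i p ih => exact ih h.2

end Pool.Agent.H.MP_321614_gt
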