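import Mathlib
import Pool.Agent.H.MP_321614_gt.A

set_option autoImplicit false
open Set Relation Pool.Agent.H.MP_424fb5_gt

namespace Pool.Agent.H.MP_321614_gt
open S

def hd (s : S) : A := lab s (fs s)
def tl (s : S) : A := lab s (ls s)
@[simp] lemma hd_lf (a) : hd (lf a) = a := rfl
@[simp] lemma tl_lf (a) : tl (lf a) = a := rfl
@[simp] lemma hd_an (a r) : hd (an a r) = a := rfl
@[simp] lemma tl_an (a r) : tl (an a r) = a := rfl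
@[simp] lemma hd_ct (s t) : hd (ct s t) = hd s := rfl
@[simp] lemma tl_ct (s t) : tl (ct s t) = tl t := rfl

def LB (s : S) : Set A := {a | ∃ v, V s v ∧ lab s v = a}

lemma LB_lf {a D} (h : a ∈ D) : LB (lf a) ⊆ D := by
  rintro _ ⟨v, k, rfl⟩
  rwa [k.lf]

lemma LB_ct {s t D} (h : LB s ⊆ D) (k : LB t ⊆ D) : LB (ct s t) ⊆ D := by
  rintro _ ⟨v, l, rfl⟩
  rcases l.ct with ⟨w, rfl, m⟩ | ⟨w, rfl, m⟩
  exacts [h ⟨w, m, rfl⟩, k ⟨w, m, rfl⟩]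

lemma LB_an {a r D} (h : a ∈ D) (k : ∀ i < 3, LB (r i) ⊆ D) : LB (an a r) ⊆ D := by
  rintro _ ⟨_ | ⟨i, v⟩, l, rfl⟩
  exacts [h, k i l.1 ⟨v, l.2, rfl⟩]

lemma hd_LB (s : S) : hd s ∈ LB s := ⟨_, V_fs s, rfl⟩

def isC : S → Prop
  | ct _ _ => True
  | _ => False

def Tp : S → A → Prop
  | s, [] => rt s
  | s, i :: v => isC s ∧ ok s i ∧ Tp (kid s i) v

lemma Tp.V {s v} (h : Tp s v) : V s v := by
  induction v generalizing s with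
  | nil => exact h
  | cons i v ih => exact ⟨h.2.1, ih h.2.2⟩

lemma Tp.l {s t v} (h : Tp s v) : Tp (ct s t) (0 :: v) := ⟨trivial, Or.inl rfl, h⟩
lemma Tp.r {s t v} (h : Tp t v) : Tp (ct s t) (1 :: v) := ⟨trivial, Or.inr rfl, h⟩

lemma Tp_fs (s : S) : Tp s (fs s) := by
  induction s with
  | ct s t i1 _ => exact i1.l
  | _ => trivial

lemma Tp_ls (s : S) : Tp s (ls s) := by
  induction s with
  | ct s t _ i2 => exact i2.r
  | _ => trivial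

lemma Fu.tp {s L v} (h : Fu s L) (k : Tp s v) : v ∈ L := by
  induction v generalizing s L with
  | nil => rcases s with _ | _ | _ <;> first | exact k.elim | exact h.2.1
  | cons i v ih =>
    rcases s with _ | _ | _ <;> try exact k.1.elim
    rcases k with ⟨-, rfl | rfl, k⟩
    exacts [ih h.l k, ih h.r k]

def TL (s : S) : Set A := {a | ∃ v, Tp s v ∧ lab s v = a}

lemma TL_LB (s : S) : TL s ⊆ LB s := fun _ ⟨v, h, e⟩ => ⟨v, h.V, e⟩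
lemma hd_TL (s : S) : hd s ∈ TL s := ⟨_, Tp_fs s, rfl⟩
lemma TL_l (s t : S) : TL s ⊆ TL (ct s t) := fun _ ⟨_, h, e⟩ => ⟨_, h.l, e⟩
lemma TL_r (s t : S) : TL t ⊆ TL (ct s t) := fun _ ⟨_, h, e⟩ => ⟨_, h.r, e⟩

def dbl (a : A) : S := ct (lf a) (lf a)
def atom (a : A) (r : ℕ → S) : S := ct (lf a) (ct (an a r) (lf a))
@[simp] lemma hd_dbl (a) : hd (dbl a) = a := rfl
@[simp] lemma tl_dbl (a) : tl (dbl a) = a := rfl
@[simp] lemma hd_atom (a r) : hd (atom a r) = a := rfl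
@[simp] lemma tl_atom (a r) : tl (atom a r) = a := rfl

lemma LB_dbl {a D} (h : a ∈ D) : LB (dbl a) ⊆ D := LB_ct (LB_lf h) (LB_lf h)
lemma LB_atom {a r D} (h : a ∈ D) (k : ∀ i < 3, LB (r i) ⊆ D) : LB (atom a r) ⊆ D :=
  LB_ct (LB_lf h) (LB_ct (LB_an h k) (LB_lf h))

def Cr (Φ : S → Prop) (s : S) (L : Set A) : Prop :=
  ∃ p, At s p ∧ (∀ x, ∃ v ∈ L, side s p v = .c x) ∧ Φ (sub s p)

lemma Cr.up {Φ s i L} (h : ok s i) (k : Cr Φ (kid s i) (dv L i)) : Cr Φ s L := by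
  obtain ⟨p, p1, p2, p3⟩ := k
  refine ⟨i :: p, ⟨h, p1⟩, fun x => ?_, p3⟩
  obtain ⟨v, v1, v2⟩ := p2 x
  exact ⟨_, v1, (side_c _ _ _ _).trans v2⟩

lemma Fu.cr {Φ : S → Prop} {a r L} (h : Fu (atom a r) L) (k : Φ (an a r)) : Cr Φ (atom a r) L :=
  ⟨[1, 0], ⟨Or.inr rfl, Or.inl rfl, trivial⟩, fun x => by
    cases x
    exacts [⟨_, h.2.1, rfl⟩, ⟨_, h.2.2, rfl⟩], k⟩

structure Pb where
  cl : A → Bool → Prop
  Φ : S → Prop
  D : Set A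

def Cc (P : Pb) (s : S) (L : Set A) : Prop := Cr P.Φ s L ∧ P.D ⊆ lab s '' L

lemma Cc.up {P s i L} (h : ok s i) (k : Cc P (kid s i) (dv L i)) : Cc P s L :=
  ⟨k.1.up h, fun _ ha => let ⟨v, v1, v2⟩ := k.2 ha; ⟨i :: v, v1, v2⟩⟩

def Pr (P : Pb) (s : S) (x y : Bool) : Prop :=
  ∀ L, Co s L → (∀ z, (∃ v ∈ L, P.cl (lab s v) z) ∨ (fs s ∈ L ∧ x = z) ∨ (ls s ∈ L ∧ y = z)) →
    Cc P s L

def No (P : Pb) (z : Bool) : Set A := {a | ¬ P.cl a z}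

variable {P : Pb}

lemma Pr.triv {s x} (h : LB s ⊆ No P (!x)) : Pr P s x x := fun L l k => by
  rcases k (!x) with ⟨v, v1, v2⟩ | ⟨-, e⟩ | ⟨-, e⟩
  · exact (h ⟨v, l.2 v v1, rfl⟩ v2).elim
  all_goals simp at e

lemma Pr.full {s} (h : ∀ z, LB s ⊆ No P z) (k : ∀ L, Fu s L → Cc P s L) (x y) : Pr P s x y :=
  fun L l o => by
    have : ∀ z, (fs s ∈ L ∧ x = z) ∨ (ls s ∈ L ∧ y = z) := fun z =>
      (o z).resolve_left fun ⟨v, v1, v2⟩ => h z ⟨v, l.2 v v1, rfl⟩ v2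
    refine k L ⟨l, ?_⟩
    rcases this true with ⟨a, rfl⟩ | ⟨a, rfl⟩ <;> rcases this false with ⟨b, e⟩ | ⟨b, e⟩ <;>
      first | exact ⟨a, b⟩ | exact ⟨b, a⟩ | cases e

lemma Pr.ct {s t x m y} (h : Pr P s x m) (k : Pr P t m y) : Pr P (ct s t) x y := fun L l o => by
  have o' : ∀ z, ((∃ v ∈ dv L 0, P.cl (lab s v) z) ∨ (fs s ∈ dv L 0 ∧ x = z)) ∨
      ((∃ v ∈ dv L 1, P.cl (lab t v) z) ∨ (ls t ∈ dv L 1 ∧ y = z)) := fun z => by
    rcases o z with ⟨v, v1, v2⟩ | e | e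
    · rcases (l.2 v v1).ct with ⟨w, rfl, -⟩ | ⟨w, rfl, -⟩
      exacts [Or.inl (Or.inl ⟨w, v1, v2⟩), Or.inr (Or.inl ⟨w, v1, v2⟩)]
    exacts [Or.inl (Or.inr e), Or.inr (Or.inr e)]
  have n0 : ∀ z, ((∃ v ∈ dv L 0, P.cl (lab s v) z) ∨ (fs s ∈ dv L 0 ∧ x = z)) →
      ∃ v, v ∈ dv L 0 := fun z e => e.elim (fun ⟨v, e, _⟩ => ⟨v, e⟩) fun e => ⟨_, e.1⟩
  have n1 : ∀ z, ((∃ v ∈ dv L 1, P.cl (lab t v) z) ∨ (ls t ∈ dv L 1 ∧ y = z)) →
      ∃ v, v ∈ dv L 1 := fun z e => e.elim (fun ⟨v, e, _⟩ => ⟨v, e⟩) fun e => ⟨_, e.1⟩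
  have c : ∀ z, z = m ∨ z = !m := by cases m <;> decide
  rcases o' (!m) with e | e
  · refine .up (Or.inl rfl) (h _ (l.dv 0) fun z => ?_)
    rcases c z with rfl | rfl
    · rcases o' z with f | f
      · exact f.imp_right Or.inl
      · exact Or.inr (Or.inr ⟨(l.jn (n0 _ e).choose_spec (n1 _ f).choose_spec).1, rfl⟩)
    · exact e.imp_right Or.inl
  · refine .up (Or.inr rfl) (k _ (l.dv 1) fun z => ?_)
    rcases c z with rfl | rfl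
    · rcases o' z with f | f
      · exact Or.inr (Or.inl ⟨(l.jn (n0 _ f).choose_spec (n1 _ e).choose_spec).2, rfl⟩)
      · exact f.imp_right Or.inr
    · exact e.imp_right Or.inr

lemma Pr.an {a r x} (h : a ∈ No P (!x)) (k : ∀ i < 3, ∃ y, Pr P (r i) x y) :
    Pr P (an a r) x x := fun L l o => by
  rcases o (!x) with ⟨v, v1, v2⟩ | ⟨-, e⟩ | ⟨-, e⟩
  rotate_left
  · simp at e
  · simp at e
  rcases v with _ | ⟨i, v⟩
  · exact (h v2).elim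
  have hi := (l.2 _ v1).1
  obtain ⟨y, hy⟩ := k i hi
  refine .up hi (hy _ (l.dv i) fun z => ?_)
  have c : z = x ∨ z = !x := by cases x <;> cases z <;> decide
  rcases c with rfl | rfl
  · have n : [] ∈ L → fs (r i) ∈ dv L i := fun e => (l.out v1 e (by simp)).1
    rcases o z with ⟨w, w1, w2⟩ | ⟨e, -⟩ | ⟨e, -⟩
    · by_cases f : ∀ u, w ≠ i :: u
      · exact Or.inr (Or.inl ⟨(l.out v1 w1 f).1, rfl⟩)
      · push Not at f
        obtain ⟨u, rfl⟩ := f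
        exact Or.inl ⟨u, w1, w2⟩
    all_goals exact Or.inr (Or.inl ⟨n e, rfl⟩)
  · exact Or.inl ⟨v, v1, v2⟩

lemma Pr.dbl {a x} (h : a ∈ No P (!x)) : Pr P (dbl a) x x := .triv (LB_dbl h)

lemma Pr.atom {a r x} (h : a ∈ No P (!x)) (k : ∀ i < 3, ∃ y, Pr P (r i) x y) :
    Pr P (atom a r) x x :=
  .ct (.triv (LB_lf h)) (.ct (.an h k) (.triv (LB_lf h)))

def R (s : S) (D : Set A) : Prop :=
  ∀ L, Co s L → fs s ∈ L → ∀ v ∈ L, lab s v ∈ D ∨ ∃ u ∈ L, Tp s u ∧ lab s u = lab s v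

lemma R.triv {s D} (h : LB s ⊆ D) : R s D := fun _ l _ v hv => Or.inl (h ⟨v, l.2 v hv, rfl⟩)

lemma R.mono {s D E} (h : R s D) (k : D ⊆ E) : R s E := fun L l f v hv =>
  (h L l f v hv).imp_left (k ·)

lemma R.lf (a D) : R (lf a) D := fun _ l _ v hv =>
  Or.inr ⟨v, hv, (l.2 v hv).lf ▸ trivial, rfl⟩

lemma R.ct {s t D} (h : R s D) (k : R t (D ∪ TL s)) : R (ct s t) D := fun L l f v hv => by
  rcases (l.2 v hv).ct with ⟨w, rfl, -⟩ | ⟨w, rfl, -⟩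
  · exact (h _ (l.dv 0) f w hv).imp_right fun ⟨u, u1, u2, u3⟩ => ⟨_, u1, u2.l, u3⟩
  · obtain ⟨j1, j2⟩ := l.jn f hv
    rcases k _ (l.dv 1) j2 w hv with (e | ⟨u, u1, u2⟩) | ⟨u, u1, u2, u3⟩
    · exact Or.inl e
    · exact Or.inr ⟨0 :: u, Fu.tp (L := dv L 0) ⟨l.dv 0, f, j1⟩ u1, u1.l, u2⟩
    · exact Or.inr ⟨_, u1, u2.r, u3⟩

lemma R.dbl (a D) : R (dbl a) D := .ct (.lf _ _) (.lf _ _)

def RR : S → Prop
  | lf _ => True
  | ct s t => RR s ∧ RR t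
  | an a r => ∀ i < 3, R (r i) ∅ ∧ hd (r i) = a ∧ RR (r i)

inductive SL : S → A → A → Prop
  | top {s u w} : Tp s u → Tp s w → SL s u w
  | c {s i u w} : ok s i → SL (kid s i) u w → SL s (i :: u) (i :: w)

def Ch (s : S) (L : Set A) (a b : A) : Prop :=
  ∃ u ∈ L, ∃ w ∈ L, SL s u w ∧ lab s u = a ∧ lab s w = b

lemma Ch.up {s i L a b} (h : ok s i) (k : Ch (kid s i) (dv L i) a b) : Ch s L a b :=
  let ⟨_, u1, _, w1, l, e1, e2⟩ := k; ⟨_, u1, _, w1, .c h l, e1, e2⟩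

lemma SL.sy {s u w} (h : SL s u w) : SL s w u := by
  induction h with
  | top a b => exact .top b a
  | c a _ ih => exact .c a ih

lemma Ch.sy {s L a b} (k : Ch s L a b) : Ch s L b a :=
  let ⟨_, u1, _, w1, l, e1, e2⟩ := k; ⟨_, w1, _, u1, l.sy, e2, e1⟩

lemma RR.top {s} (h : RR s) {L v k} (l : Co s L) (hv : v ∈ L) (hk : k ∈ L) (tk : Tp s k) :
    ∃ u ∈ L, Tp s u ∧ Ch s L (lab s v) (lab s u) := by
  induction s generalizing L v k with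
  | lf a => exact ⟨k, hk, tk, v, hv, k, hk, .top ((l.2 v hv).lf ▸ trivial) tk, rfl, rfl⟩
  | ct s t i1 i2 =>
    rcases (l.2 v hv).ct with ⟨w, rfl, -⟩ | ⟨w, rfl, -⟩
    · obtain ⟨k, hk, tk⟩ : ∃ k ∈ dv L 0, Tp s k := by
        rcases (l.2 k hk).ct with ⟨k, rfl, -⟩ | ⟨k, rfl, -⟩
        exacts [⟨k, hk, tk.2.2⟩, ⟨_, (l.jn hv hk).1, Tp_ls s⟩]
      obtain ⟨u, u1, u2, u3⟩ := i1 h.1 (l.dv 0) hv hk tk
      exact ⟨_, u1, u2.l, .up (Or.inl rfl) u3⟩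
    · obtain ⟨k, hk, tk⟩ : ∃ k ∈ dv L 1, Tp t k := by
        rcases (l.2 k hk).ct with ⟨k, rfl, -⟩ | ⟨k, rfl, -⟩
        exacts [⟨_, (l.jn hk hv).2, Tp_fs t⟩, ⟨k, hk, tk.2.2⟩]
      obtain ⟨u, u1, u2, u3⟩ := i2 h.2 (l.dv 1) hv hk tk
      exact ⟨_, u1, u2.r, .up (Or.inr rfl) u3⟩
  | an a r _ =>
    rcases k with _ | _
    swap
    · exact tk.1.elim
    refine ⟨_, hk, tk, ?_⟩
    rcases v with _ | ⟨i, v⟩
    · exact ⟨_, hk, _, hk, .top tk tk, rfl, rfl⟩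
    have hi := (l.2 _ hv).1
    have f := (l.out hv hk (by simp)).1
    obtain ⟨u, u1, u2, u3⟩ := ((h i hi).1 _ (l.dv i) f v hv).resolve_left id
    exact .up hi ⟨u, u1, _, f, .top u2 (Tp_fs _), u3, (h i hi).2.1⟩

lemma RR.pair {s} (h : RR s) {L x y} (l : Co s L) (hx : x ∈ L) (hy : y ∈ L) :
    ∃ a b, Ch s L (lab s x) a ∧ Ch s L a b ∧ Ch s L b (lab s y) := by
  have top : ∀ s, RR s → ∀ L x y k, Co s L → x ∈ L → y ∈ L → k ∈ L → Tp s k →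
      ∃ a b, Ch s L (lab s x) a ∧ Ch s L a b ∧ Ch s L b (lab s y) := fun s h L x y k l hx hy hk tk => by
    obtain ⟨u, u1, u2, u3⟩ := h.top l hx hk tk
    obtain ⟨w, w1, w2, w3⟩ := h.top l hy hk tk
    exact ⟨_, _, u3, ⟨u, u1, w, w1, .top u2 w2, rfl, rfl⟩, w3.sy⟩
  induction s generalizing L x y with
  | lf a => exact top _ h _ _ _ x l hx hy hx ((l.2 x hx).lf ▸ trivial)
  | ct s t i1 i2 =>
    rcases (l.2 x hx).ct with ⟨x, rfl, -⟩ | ⟨x, rfl, -⟩ <;>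
      rcases (l.2 y hy).ct with ⟨y, rfl, -⟩ | ⟨y, rfl, -⟩
    · obtain ⟨a, b, c1, c2, c3⟩ := i1 h.1 (l.dv 0) hx hy
      exact ⟨a, b, .up (Or.inl rfl) c1, .up (Or.inl rfl) c2, .up (Or.inl rfl) c3⟩
    · exact top _ h _ _ _ _ l hx hy (l.jn hx hy).1 (Tp_ls s).l
    · exact top _ h _ _ _ _ l hx hy (l.jn hy hx).1 (Tp_ls s).l
    · obtain ⟨a, b, c1, c2, c3⟩ := i2 h.2 (l.dv 1) hx hy
      exact ⟨a, b, .up (Or.inr rfl) c1, .up (Or.inr rfl) c2, .up (Or.inr rfl) c3⟩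
  | an a r ih =>
    by_cases e : [] ∈ L
    · exact top _ h _ _ _ _ l hx hy e trivial
    rcases x with _ | ⟨i, x⟩
    · exact (e hx).elim
    by_cases f : ∀ w, y ≠ i :: w
    · exact (e (l.out hx hy f).2).elim
    push Not at f
    obtain ⟨y, rfl⟩ := f
    have hi := (l.2 _ hx).1
    obtain ⟨a, b, c1, c2, c3⟩ := ih i (h i hi).2.2 (l.dv i) hx hy
    exact ⟨a, b, .up hi c1, .up hi c2, .up hi c3⟩

def G2 (G : A → A → Prop) (s : S) : Prop :=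
  ∀ u v w, Ad s u v → Ad s v w → G (lab s u) (lab s w)
def F1 (s : S) : Prop := ∀ v, Ad s (fs s) v → lab s v = hd s
def L1 (s : S) : Prop := ∀ v, Ad s (ls s) v → lab s v = tl s

variable {G : A → A → Prop}

lemma G2.lf {a} (h : G a a) : G2 G (lf a) := fun u v w k l => by
  rwa [k.mem.lf, l.sy.mem.lf]

lemma G2.one {s u w} (h : G2 G s) (k : Ad s u w) : G (lab s u) (lab s w) := h _ _ _ k.mem.rf k

lemma G2.ct {s t} (h : G2 G s) (k : G2 G t) (g1 : G (tl s) (hd t)) (g2 : G (hd t) (tl s))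
    (e : tl s = hd t ∨ (L1 s ∧ F1 t)) : G2 G (ct s t) := fun u v w a' b' => by
  rcases b'.mem.ct with ⟨v, rfl, hv⟩ | ⟨v, rfl, hv⟩ <;>
    rcases a'.sy.inv with ⟨u, rfl, a⟩ | ⟨rfl, rfl⟩ <;>
    rcases b'.inv with ⟨w, rfl, b⟩ | ⟨e', rfl⟩
  · exact h _ _ _ a.sy b
  · subst e'
    show G (lab s u) (hd t)
    rcases e with e | e
    · rw [← e]; exact h.one a.sy
    · rw [e.1 u a]; exact g1
  · show G (hd t) (lab s w)
    rcases e with e | e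
    · rw [← e]; exact h.one b
    · rw [e.1 w b]; exact g2
  · exact k.one (V_fs t).rf
  · exact k _ _ _ a.sy b
  · subst e'
    show G (lab t u) (tl s)
    rcases e with e | e
    · rw [e]; exact k.one a.sy
    · rw [e.2 u a]; exact g2
  · show G (tl s) (lab t w)
    rcases e with e | e
    · rw [e]; exact k.one b
    · rw [e.2 w b]; exact g1
  · exact h.one (V_ls s).rf

lemma G2.an {a r} (g : G a a) (h : ∀ i < 3, G2 G (r i) ∧ hd (r i) = a) : G2 G (an a r) :=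
  fun u v w k' l' => by
    rcases v with _ | ⟨i, v⟩
    · have : ∀ x, Ad (S.an a r) [] x → lab (S.an a r) x = a := fun x k => by
        rcases k.inv0 with rfl | ⟨i, hi, rfl, -⟩
        exacts [rfl, (h i hi).2]
      rwa [this u k'.sy, this w l']
    obtain ⟨h1, h2⟩ := h i l'.mem.1
    rcases k'.sy.inv with ⟨u, rfl, k⟩ | ⟨rfl, rfl⟩ <;> rcases l'.inv with ⟨w, rfl, l⟩ | ⟨e, rfl⟩
    · exact h1 _ _ _ k.sy l
    · subst e
      exact h2 ▸ h1.one k.sy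
    · exact h2 ▸ h1.one l
    · exact g

lemma F1.lf (a) : F1 (lf a) := fun v h => by rw [h.sy.mem.lf]; rfl
lemma L1.lf (a) : L1 (lf a) := fun v h => by rw [h.sy.mem.lf]; rfl

lemma F1.ct {s t} (h : F1 s) (e : fs s ≠ ls s ∨ tl s = hd t) : F1 (ct s t) := fun v k' => by
  rcases Ad.inv k' with ⟨w, rfl, k⟩ | ⟨k, rfl⟩
  · exact h w k
  · exact (e.resolve_left fun n => n k).symm.trans (congrArg (lab s) k.symm)

lemma L1.ct {s t} (h : L1 t) (e : fs t ≠ ls t ∨ tl s = hd t) : L1 (ct s t) := fun v k' => by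
  rcases Ad.inv k' with ⟨w, rfl, k⟩ | ⟨k, rfl⟩
  · exact h w k
  · exact (e.resolve_left fun n => n k.symm).trans (congrArg (lab t) k.symm)

def Gd (G : A → A → Prop) (s : S) : Prop := G2 G s ∧ F1 s ∧ L1 s ∧ fs s ≠ ls s

lemma Gd.hh {s} (h : Gd G s) : G (hd s) (hd s) := h.1.one (V_fs s).rf

lemma Gd.ct {s t} (h : Gd G s) (k : Gd G t) (g1 : G (tl s) (hd t)) (g2 : G (hd t) (tl s)) :
    Gd G (ct s t) :=
  ⟨h.1.ct k.1 g1 g2 (Or.inr ⟨h.2.2.1, k.2.1⟩), h.2.1.ct (Or.inl h.2.2.2),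
    k.2.2.1.ct (Or.inl k.2.2.2), by simp [fs, ls]⟩

lemma Gd.dbl {a} (g : G a a) : Gd G (dbl a) :=
  ⟨(G2.lf g).ct (.lf g) g g (Or.inl rfl), (F1.lf a).ct (Or.inr rfl), (L1.lf a).ct (Or.inr rfl),
    by simp [fs, ls, MP_321614_gt.dbl]⟩

lemma Gd.atom {a r} (g : G a a) (h : ∀ i < 3, G2 G (r i) ∧ hd (r i) = a) :
    Gd G (atom a r) :=
  ⟨(G2.lf g).ct ((G2.an g h).ct (.lf g) g g (Or.inl rfl)) g g (Or.inl rfl),
    (F1.lf a).ct (Or.inr rfl), ((L1.lf a).ct (s := an a r) (Or.inr rfl)).ct (s := lf a) (Or.inr rfl),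
    by simp [fs, ls, MP_321614_gt.atom]⟩

end Pool.Agent.H.MP_321614_gt
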