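import Mathlib
import Pool.Agent.H.MP_321614_gt.B

set_option autoImplicit false
open Set Relation Pool.Agent.H.MP_424fb5_gt

namespace Pool.Agent.H.MP_321614_gt
open S

def F : ℕ → (ℕ → S) → S
  | 0, b => b 0
  | 1, b => ct (b 0) (b 1)
  | n + 2, b => ct (F (n + 1) b) (ct (F n fun i => b (n + 1 - i))
      (ct (atom (hd (b 1)) fun _ => F n fun i => b (i + 1)) (F (n + 1) fun i => b (i + 1))))

lemma F_ind (Q : ℕ → (ℕ → S) → Prop) (h0 : ∀ b, Q 0 b) (h1 : ∀ b, Q 1 b)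
    (h2 : ∀ n b, Q (n + 1) b → Q n (fun i => b (n + 1 - i)) → Q n (fun i => b (i + 1)) →
      Q (n + 1) (fun i => b (i + 1)) → Q (n + 2) b) (n : ℕ) : ∀ b, Q n b := by
  have : (∀ b, Q n b) ∧ ∀ b, Q (n + 1) b := by
    induction n with
    | zero => exact ⟨h0, h1⟩
    | succ n ih => exact ⟨ih.2, fun b => h2 n b (ih.2 _) (ih.1 _) (ih.1 _) (ih.2 _)⟩
  exact this.1

lemma hd_F (n b) : hd (F n b) = hd (b 0) := by
  induction n, b using F_ind with
  | h0 => rfl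
  | h1 => rfl
  | h2 n b i1 => exact i1

lemma tl_F (n b) : tl (F n b) = tl (b n) := by
  induction n, b using F_ind with
  | h0 => rfl
  | h1 => rfl
  | h2 n b _ _ _ i4 => exact i4

lemma LB_F {n b D} (h : ∀ t ≤ n, LB (b t) ⊆ D) : LB (F n b) ⊆ D := by
  induction n, b using F_ind with
  | h0 => exact h 0 le_rfl
  | h1 => exact LB_ct (h 0 (by omega)) (h 1 le_rfl)
  | h2 n b i1 i2 i3 i4 =>
    exact LB_ct (i1 fun t _ => h t (by omega)) (LB_ct (i2 fun t _ => h _ (by omega)) (LB_ct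
      (LB_atom (h 1 (by omega) (hd_LB _)) fun _ _ => i3 fun t _ => h _ (by omega))
      (i4 fun t _ => h _ (by omega))))

lemma TL_F {n b t} (h : t ≤ n) : TL (b t) ⊆ TL (F n b) := by
  induction n, b using F_ind generalizing t with
  | h0 => rw [show t = 0 by omega]; rfl
  | h1 =>
    rcases t with _ | t
    · exact TL_l _ _
    · rw [show t = 0 by omega]; exact TL_r _ _
  | h2 n b i1 i2 i3 i4 =>
    rcases t with _ | t
    · exact (i1 (by omega)).trans (TL_l _ _)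
    · exact (((i4 (t := t) (by omega)).trans (TL_r _ _)).trans (TL_r _ _)).trans (TL_r _ _)

lemma Gd_F {G : A → A → Prop} (hs : ∀ a b, G a b → G b a) {n b}
    (h : ∀ t ≤ n, Gd G (b t) ∧ tl (b t) = hd (b t)) (k : ∀ t < n, G (hd (b t)) (hd (b (t + 1)))) :
    Gd G (F n b) := by
  have c : ∀ s t, Gd G s → Gd G t → tl s = hd t → Gd G (ct s t) := fun s t h k e =>
    h.ct k (e ▸ k.hh) (e ▸ k.hh)
  induction n, b using F_ind with
  | h0 => exact (h 0 le_rfl).1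
  | h1 b =>
    have := k 0 one_pos
    rw [← (h 0 (by omega)).2] at this
    exact (h 0 (by omega)).1.ct (h 1 le_rfl).1 this (hs _ _ this)
  | h2 n b i1 i2 i3 i4 =>
    refine c _ _ (i1 (fun t _ => h t (by omega)) fun t _ => k t (by omega)) (c _ _
      (i2 (fun t _ => h _ (by omega)) fun t _ => hs _ _ ?_) (c _ _ (.atom (h 1 (by omega)).1.hh
      fun _ _ => ⟨(i3 (fun t _ => h _ (by omega)) fun t _ => k _ (by omega)).1, hd_F _ _⟩)
      (i4 (fun t _ => h _ (by omega)) fun t _ => k _ (by omega)) (hd_F _ fun i => b (i + 1)).symm) ?_) ?_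
    · dsimp only
      rw [show n + 1 - t = n - t + 1 by omega, show n + 1 - (t + 1) = n - t by omega]
      exact k _ (by omega)
    · rw [tl_F, show n + 1 - n = 1 by omega]
      exact (h 1 (by omega)).2
    · rw [tl_F, hd_ct, hd_F]
      exact (h _ (by omega)).2

lemma R.ct' {s t} (h : R s ∅) (k : R t ∅) : R (S.ct s t) ∅ := h.ct (k.mono (empty_subset _))

lemma R_F {n b} (h : ∀ t ≤ n, R (b t) ∅ ∧ RR (b t) ∧ LB (b t) ⊆ TL (b t)) :
    R (F n b) ∅ ∧ RR (F n b) := by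
  induction n, b using F_ind with
  | h0 => exact ⟨(h 0 le_rfl).1, (h 0 le_rfl).2.1⟩
  | h1 => exact ⟨(h 0 (by omega)).1.ct' (h 1 le_rfl).1, (h 0 (by omega)).2.1, (h 1 le_rfl).2.1⟩
  | h2 n b i1 i2 i3 i4 =>
    have j1 := i1 fun t _ => h t (by omega)
    have j2 := i2 fun t _ => h _ (by omega)
    have j3 := i3 fun t _ => h _ (by omega)
    have j4 := i4 fun t _ => h _ (by omega)
    have l : ∀ t ≤ n + 1, LB (b t) ⊆ (∅ ∪ TL (F (n + 1) b)) ∪ TL (F n fun i => b (n + 1 - i)) :=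
      fun t ht a ha => Or.inl (Or.inr (TL_F ht ((h t (by omega)).2.2 ha)))
    exact ⟨j1.1.ct ((j2.1.mono (empty_subset _)).ct (.ct (.triv (LB_atom (l 1 (by omega) (hd_LB _))
      fun _ _ => LB_F fun t _ => l _ (by omega))) (j4.1.mono (empty_subset _)))),
      j1.2, j2.2, ⟨trivial, fun _ _ => ⟨j3.1, hd_F _ _, j3.2⟩, trivial⟩, j4.2⟩

variable {P : Pb}

lemma Pr_F (o : S → Bool → Prop) {n b}
    (h : ∀ t ≤ n, ∀ x, o (b t) x → hd (b t) ∈ No P (!x) ∧ ∀ y, o (b t) y → Pr P (b t) x y)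
    (k : ∀ t < n, ∃ x, o (b t) x ∧ o (b (t + 1)) x) {x y} (hx : o (b 0) x) (hy : o (b n) y) :
    Pr P (F n b) x y := by
  induction n, b using F_ind generalizing x y with
  | h0 => exact (h 0 le_rfl x hx).2 y hy
  | h1 b =>
    obtain ⟨z, z1, z2⟩ := k 0 one_pos
    exact ((h 0 (by omega) x hx).2 z z1).ct ((h 1 le_rfl z z2).2 y hy)
  | h2 n b i1 i2 i3 i4 =>
    obtain ⟨z, -, z1⟩ := k 0 (by omega)
    obtain ⟨w, w1, -⟩ := k (n + 1) (by omega)
    refine (i1 (fun t _ => h t (by omega)) (fun t _ => k t (by omega)) hx w1).ct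
      (.ct (i2 (fun t _ => h _ (by omega)) (fun t _ => ?_) w1 (y := z) ?_)
      (.ct (.atom (h 1 (by omega) z z1).1 fun _ _ => ⟨w, i3 (fun t _ => h _ (by omega))
        (fun t _ => k _ (by omega)) z1 w1⟩)
      (i4 (fun t _ => h _ (by omega)) (fun t _ => k _ (by omega)) z1 hy)))
    · dsimp only
      rw [show n + 1 - t = n - t + 1 by omega, show n + 1 - (t + 1) = n - t by omega]
      exact (k _ (by omega)).imp fun _ => And.symm
    · dsimp only
      rwa [show n + 1 - n = 1 by omega]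

lemma Tr_F (hD : P.D = ∅) {n b x y i j} (e : x ≠ y) (h1 : i < j) (h2 : j < n)
    (a1 : ∀ t ≤ j, LB (b t) ⊆ No P y) (a2 : ∀ t, i < t → t ≤ n → LB (b t) ⊆ No P x)
    (hΦ : ∀ a r, (∀ k, hd (b (i + 1)) ∈ LB (r k) ∧ hd (b j) ∈ LB (r k)) → P.Φ (an a r)) :
    Pr P (F n b) x y := by
  have tr : ∀ x y s, x ≠ y → LB s ⊆ No P y → Pr P s x x := fun x y s e h =>
    .triv (Bool.eq_not_of_ne e.symm ▸ h)
  induction n, b using F_ind generalizing x y i j with
  | h0 => omega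
  | h1 => omega
  | h2 n b i1 i2 i3 i4 =>
    have la : ∀ D, (∀ t, 0 < t → t ≤ n + 1 → LB (b t) ⊆ D) →
        LB (atom (hd (b 1)) fun _ => F n fun i => b (i + 1)) ⊆ D := fun D h =>
      LB_atom (h 1 one_pos (by omega) (hd_LB _)) fun _ _ => LB_F fun t _ => h _ (by omega) (by omega)
    rcases i with _ | i <;> by_cases hj : j = n + 1
    · refine (tr _ _ _ e (LB_F fun t _ => a1 t (by omega))).ct (.ct (tr _ _ _ e
        (LB_F fun t _ => a1 _ (by omega))) (.ct (.full (fun z => ?_) (fun L l => ⟨l.cr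
          (hΦ _ _ fun _ => ?_), hD ▸ empty_subset _⟩) x y)
        (tr _ _ _ e.symm (LB_F fun t _ => a2 _ (by omega) (by omega)))))
      · have : z = x ∨ z = y := by revert e; cases x <;> cases y <;> cases z <;> decide
        rcases this with rfl | rfl
        exacts [la _ fun t _ _ => a2 t (by omega) (by omega), la _ fun t _ _ => a1 t (by omega)]
      · subst hj
        exact ⟨TL_LB _ (TL_F (b := fun i => b (i + 1)) (Nat.zero_le n) (hd_TL _)),
          TL_LB _ (TL_F (b := fun i => b (i + 1)) le_rfl (hd_TL _))⟩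
    · exact (i1 e h1 (by omega) a1 (fun t _ _ => a2 t (by omega) (by omega)) hΦ).ct
        (tr _ _ _ e.symm (LB_ct (LB_F fun t _ => a2 _ (by omega) (by omega)) (LB_ct
          (la _ fun t _ _ => a2 t (by omega) (by omega))
          (LB_F fun t _ => a2 _ (by omega) (by omega)))))
    · subst hj
      exact (tr _ _ _ e (LB_F fun t _ => a1 t (by omega))).ct (.ct (tr _ _ _ e
        (LB_F fun t _ => a1 _ (by omega))) (.ct (tr _ _ _ e (la _ fun t _ _ => a1 t (by omega)))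
        (i4 (i := i) (j := n) e (by omega) (by omega) (fun t _ => a1 _ (by omega))
          (fun t _ _ => a2 _ (by omega) (by omega)) hΦ)))
    · obtain ⟨j, rfl⟩ : ∃ k, j = k + 1 := ⟨j - 1, by omega⟩
      refine (i1 e h1 (by omega) a1 (fun t _ _ => a2 t (by omega) (by omega)) hΦ).ct (.ct
        (i2 (i := n - (j + 1)) (j := n - (i + 1)) e.symm (by omega) (by omega)
          (fun t _ => a2 _ (by omega) (by omega)) (fun t _ _ => a1 _ (by omega)) ?_)
        (.ct (.atom (Bool.eq_not_of_ne e.symm ▸ a1 1 (by omega) (hd_LB _)) fun _ _ => ⟨y,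
          i3 (i := i) (j := j) e (by omega) (by omega) (fun t _ => a1 _ (by omega))
          (fun t _ _ => a2 _ (by omega) (by omega)) hΦ⟩)
        (i4 (i := i) (j := j) e (by omega) (by omega) (fun t _ => a1 _ (by omega))
          (fun t _ _ => a2 _ (by omega) (by omega)) hΦ)))
      dsimp only
      rw [show n + 1 - (n - (j + 1) + 1) = j + 1 by omega,
        show n + 1 - (n - (i + 1)) = i + 1 + 1 by omega]
      exact fun a r k => hΦ a r fun l => (k l).symm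

def Wj (c : A) (f g : S) : S := ct f (ct g (dbl c))
def Zz (c : A) (f g : ℕ → S) : S :=
  ct (dbl c) (ct (Wj c (f 0) (g 0)) (ct (Wj c (f 1) (g 1)) (Wj c (f 2) (g 2))))
def OB (c : A) (f g : ℕ → S) : S :=
  ct (Zz c f g) (ct (atom c fun j => ct (dbl c) (f j)) (Zz c f g))

lemma LB_OB {c f g D} (h : c ∈ D) (k : ∀ j < 3, LB (f j) ⊆ D ∧ LB (g j) ⊆ D) :
    LB (OB c f g) ⊆ D := by
  have w : ∀ j < 3, LB (Wj c (f j) (g j)) ⊆ D := fun j hj =>
    LB_ct (k j hj).1 (LB_ct (k j hj).2 (LB_dbl h))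
  have z : LB (Zz c f g) ⊆ D :=
    LB_ct (LB_dbl h) (LB_ct (w 0 (by omega)) (LB_ct (w 1 (by omega)) (w 2 (by omega))))
  exact LB_ct z (LB_ct (LB_atom h fun j hj => LB_ct (LB_dbl h) (k j hj).1) z)

lemma TL_Z {c f g j} (h : j < 3) : TL (f j) ⊆ TL (Zz c f g) := by
  refine Subset.trans ?_ (TL_r _ _)
  interval_cases j
  · exact (TL_l _ _).trans (TL_l _ _)
  · exact ((TL_l _ _).trans (TL_l _ _)).trans (TL_r _ _)
  · exact ((TL_l _ _).trans (TL_r _ _)).trans (TL_r _ _)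

lemma Gd_OB {G : A → A → Prop} (hs : ∀ a b, G a b → G b a) {c f g} (h : G c c)
    (k : ∀ j < 3, Gd G (f j) ∧ Gd G (g j) ∧ G c (hd (f j)) ∧ G c (tl (g j)) ∧
      tl (f j) = hd (g j)) : Gd G (OB c f g) := by
  have w : ∀ j < 3, Gd G (Wj c (f j) (g j)) := fun j hj =>
    let ⟨k1, k2, _, k4, k5⟩ := k j hj
    k1.ct (k2.ct (.dbl h) (hs _ _ k4) k4) (k5 ▸ k2.hh) (k5 ▸ k2.hh)
  have l : ∀ j < 3, G c (hd (f j)) := fun j hj => (k j hj).2.2.1
  have z : Gd G (Zz c f g) := (Gd.dbl h).ct ((w 0 (by omega)).ct ((w 1 (by omega)).ct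
    (w 2 (by omega)) (l 2 (by omega)) (hs _ _ (l 2 (by omega)))) (l 1 (by omega))
    (hs _ _ (l 1 (by omega)))) (l 0 (by omega)) (hs _ _ (l 0 (by omega)))
  exact z.ct (.ct (.atom h fun j hj => ⟨((Gd.dbl h).ct (k j hj).1 (l j hj) (hs _ _ (l j hj))).1,
    rfl⟩) z h h) h h

lemma R_OB {c f g} (k : ∀ j < 3, (R (f j) ∅ ∧ RR (f j)) ∧ (R (g j) ∅ ∧ RR (g j)) ∧
    LB (f j) ⊆ TL (f j)) : R (OB c f g) ∅ ∧ RR (OB c f g) := by
  have w : ∀ j < 3, R (Wj c (f j) (g j)) ∅ ∧ RR (Wj c (f j) (g j)) := fun j hj =>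
    let ⟨k1, k2, _⟩ := k j hj
    ⟨k1.1.ct' (k2.1.ct' (.dbl _ _)), k1.2, k2.2, trivial, trivial⟩
  have w0 := w 0 (by omega)
  have w1 := w 1 (by omega)
  have w2 := w 2 (by omega)
  have z : R (Zz c f g) ∅ := (R.dbl _ _).ct' (w0.1.ct' (w1.1.ct' w2.1))
  have z' : RR (Zz c f g) := ⟨⟨trivial, trivial⟩, w0.2, w1.2, w2.2⟩
  have e : c ∈ ∅ ∪ TL (Zz c f g) := Or.inr (hd_TL _)
  exact ⟨z.ct (.ct (.triv (LB_atom e fun j hj => LB_ct (LB_dbl e) fun a ha =>
    Or.inr (TL_Z hj ((k j hj).2.2 ha)))) (z.mono (empty_subset _))), z', ⟨trivial, fun j hj =>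
    ⟨(R.dbl _ _).ct' (k j hj).1.1, rfl, ⟨trivial, trivial⟩, (k j hj).1.2⟩, trivial⟩, z'⟩

lemma Pr_OB {c f g x} (h : c ∈ No P (!x)) (k : ∀ j < 3, ∃ y, Pr P (f j) x y ∧ Pr P (g j) y x) :
    Pr P (OB c f g) x x := by
  have w : ∀ j < 3, Pr P (Wj c (f j) (g j)) x x := fun j hj =>
    let ⟨_, k1, k2⟩ := k j hj
    k1.ct (k2.ct (.dbl h))
  have z : Pr P (Zz c f g) x x :=
    (Pr.dbl h).ct ((w 0 (by omega)).ct ((w 1 (by omega)).ct (w 2 (by omega))))
  exact z.ct (.ct (.atom h fun j hj => let ⟨y, k1, _⟩ := k j hj; ⟨y, (Pr.dbl h).ct k1⟩) z)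

def nn : S → ℕ
  | ct s t => nn s + nn t + 1
  | _ => 0

def tp : S → ℕ → A
  | ct s t, i => if i ≤ nn s then 0 :: tp s i else 1 :: tp t (i - (nn s + 1))
  | _, _ => []

def bk : S → A → ℕ → S
  | lf _, c, _ => dbl c
  | ct s t, c, i => if i ≤ nn s then bk s (c ++ [0]) i else bk t (c ++ [1]) (i - (nn s + 1))
  | an _ r, c, _ => OB c (fun j => F (nn (r j)) (bk (r j) (c ++ [j])))
      fun j => F (nn (r j)) fun i => bk (r j) (c ++ [j]) (nn (r j) - i)

def Fw (s : S) (c : A) : S := F (nn s) (bk s c)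
def Bw (s : S) (c : A) : S := F (nn s) fun i => bk s c (nn s - i)

lemma tp_l {s i} (t) (h : i ≤ nn s) : tp (ct s t) i = 0 :: tp s i := if_pos h
lemma bk_l {s i} (t c) (h : i ≤ nn s) : bk (ct s t) c i = bk s (c ++ [0]) i := if_pos h
lemma tp_r (s t i) : tp (ct s t) (nn s + 1 + i) = 1 :: tp t i := by
  rw [tp, if_neg (by omega), Nat.add_sub_cancel_left]
lemma bk_r (s t c i) : bk (ct s t) c (nn s + 1 + i) = bk t (c ++ [1]) i := by
  rw [bk, if_neg (by omega), Nat.add_sub_cancel_left]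

lemma idx {s t i} (h : i ≤ nn (ct s t)) : i ≤ nn s ∨ ∃ k ≤ nn t, i = nn s + 1 + k := by
  rw [nn] at h
  by_cases e : i ≤ nn s
  exacts [Or.inl e, Or.inr ⟨i - (nn s + 1), by omega, by omega⟩]

lemma idx' {s t i} (h : i ≤ nn (ct s t)) : ∃ k j, ok (ct s t) k ∧ j ≤ nn (kid (ct s t) k) ∧
    tp (ct s t) i = k :: tp (kid (ct s t) k) j ∧
    ∀ c, bk (ct s t) c i = bk (kid (ct s t) k) (c ++ [k]) j := by
  rcases idx h with l | ⟨k, l, rfl⟩
  · exact ⟨0, i, Or.inl rfl, l, tp_l t l, fun c => bk_l t c l⟩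
  · exact ⟨1, k, Or.inr rfl, l, tp_r s t k, fun c => bk_r s t c k⟩

lemma tp_0 (s : S) : tp s 0 = fs s := by
  induction s with
  | ct s t i1 _ => rw [tp_l t (Nat.zero_le _), i1]; rfl
  | _ => rfl

lemma tp_n (s : S) : tp s (nn s) = ls s := by
  induction s with
  | ct s t _ i2 => rw [nn, show nn s + nn t + 1 = nn s + 1 + nn t by omega, tp_r, i2]; rfl
  | _ => rfl

lemma tp_ad {s i} (h : i < nn s) : Ad s (tp s i) (tp s (i + 1)) := by
  induction s generalizing i with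
  | ct s t i1 i2 =>
    rcases idx (Nat.succ_le_of_lt h) with k | ⟨_ | k, l, e⟩
    · rw [tp_l t k, tp_l t (by omega)]
      exact .c (Or.inl rfl) (i1 k)
    · rw [Nat.succ_eq_add_one] at e
      rw [e, tp_r, show i = nn s by omega, tp_l t le_rfl, tp_n, tp_0]
      exact .j' (i := 0) (Or.inl rfl)
    · rw [Nat.succ_eq_add_one] at e
      rw [e, tp_r, show i = nn s + 1 + k by omega, tp_r]
      exact .c (Or.inr rfl) (i2 l)
  | _ => cases h

lemma Tp.idx {s v} (h : Tp s v) : ∃ i ≤ nn s, v = tp s i := by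
  induction s generalizing v with
  | lf a => exact ⟨0, le_rfl, h.V.lf⟩
  | ct s t i1 i2 =>
    rcases h.V.ct with ⟨w, rfl, -⟩ | ⟨w, rfl, -⟩
    · obtain ⟨i, k, rfl⟩ := i1 h.2.2
      exact ⟨i, by rw [nn]; omega, (tp_l t k).symm⟩
    · obtain ⟨i, k, rfl⟩ := i2 h.2.2
      exact ⟨_, by rw [nn]; omega, (tp_r s t i).symm⟩
  | an a r =>
    rcases v with _ | _
    exacts [⟨0, le_rfl, rfl⟩, h.1.elim]

lemma tp_inj {s i j w} (hi : i ≤ nn s) (hj : j ≤ nn s) (e : tp s j = tp s i ++ w) : i = j := by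
  induction s generalizing i j with
  | ct s t i1 i2 =>
    rcases idx hi with k | ⟨i, k, rfl⟩ <;> rcases idx hj with l | ⟨j, l, rfl⟩
    · rw [tp_l t k, tp_l t l] at e
      exact i1 k l (List.cons.inj e).2
    · rw [tp_l t k, tp_r] at e
      cases (List.cons.inj e).1
    · rw [tp_l t l, tp_r] at e
      cases (List.cons.inj e).1
    · rw [tp_r, tp_r] at e
      rw [i2 k l (List.cons.inj e).2]
  | _ => exact (Nat.le_zero.1 hi).trans (Nat.le_zero.1 hj).symm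

lemma app1 (c : A) (k w) : c ++ [k] ++ w = c ++ k :: w := List.append_assoc _ _ _

lemma hd_bk (s c i) : hd (bk s c i) = c ++ tp s i ∧ tl (bk s c i) = c ++ tp s i := by
  induction s generalizing c i with
  | ct s t i1 i2 =>
    rw [bk, tp]
    split_ifs
    exacts [app1 c 0 (tp s i) ▸ i1 _ _, app1 c 1 (tp t _) ▸ i2 _ _]
  | _ => exact ⟨(List.append_nil c).symm, (List.append_nil c).symm⟩

def Sh (c : A) (s : S) : Set A := (c ++ ·) '' {v | V s v}

lemma Sh_up {s k} (c) (h : ok s k) : Sh (c ++ [k]) (kid s k) ⊆ Sh c s := by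
  rintro _ ⟨v, hv, rfl⟩
  exact ⟨k :: v, ⟨h, hv⟩, by simp⟩

lemma LB_bk {s c i} (h : i ≤ nn s) :
    LB (bk s c i) ⊆ {x | ∃ w, V s (tp s i ++ w) ∧ c ++ (tp s i ++ w) = x} := by
  induction s generalizing c i with
  | lf a => exact LB_dbl ⟨[], trivial, by simp [tp]⟩
  | ct s t i1 i2 =>
    rcases idx h with k | ⟨i, k, rfl⟩
    · rw [bk_l t c k, tp_l t k]
      exact fun x hx => let ⟨w, w1, w2⟩ := i1 k hx; ⟨w, ⟨Or.inl rfl, w1⟩, by simpa using w2⟩
    · rw [bk_r, tp_r]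
      exact fun x hx => let ⟨w, w1, w2⟩ := i2 k hx; ⟨w, ⟨Or.inr rfl, w1⟩, by simpa using w2⟩
  | an a r ih =>
    have : ∀ j < 3, ∀ t ≤ nn (r j), LB (bk (r j) (c ++ [j]) t) ⊆
        {x | ∃ w, V (an a r) ([] ++ w) ∧ c ++ ([] ++ w) = x} := fun j hj t ht x hx =>
      let ⟨w, w1, w2⟩ := ih j ht hx; ⟨j :: _, ⟨hj, w1⟩, by simpa using w2⟩
    exact LB_OB ⟨[], trivial, by simp [tp]⟩ fun j hj =>
      ⟨LB_F (this j hj), LB_F fun t _ => this j hj _ (by omega)⟩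

lemma LB_bk' {s c i} (h : i ≤ nn s) : LB (bk s c i) ⊆ Sh c s := fun _ hx =>
  let ⟨_, w1, w2⟩ := LB_bk h hx; ⟨_, w1, w2⟩

lemma LB_Fw (s c) : LB (Fw s c) ⊆ Sh c s := LB_F fun _ => LB_bk'
lemma LB_Bw (s c) : LB (Bw s c) ⊆ Sh c s := LB_F fun _ _ => LB_bk' (by omega)

lemma TL_bk {s v} (c) (h : V s v) : ∃ i ≤ nn s, c ++ v ∈ TL (bk s c i) := by
  induction s generalizing c v with
  | lf a => exact ⟨0, le_rfl, by rw [h.lf, List.append_nil]; exact hd_TL (dbl c)⟩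
  | ct s t i1 i2 =>
    rcases h.ct with ⟨w, rfl, k⟩ | ⟨w, rfl, k⟩
    · obtain ⟨i, l1, l2⟩ := i1 (c ++ [0]) k
      exact ⟨i, by rw [nn]; omega, by rw [bk_l t c l1]; simpa using l2⟩
    · obtain ⟨i, l1, l2⟩ := i2 (c ++ [1]) k
      exact ⟨nn s + 1 + i, by rw [nn]; omega, by rw [bk_r]; simpa using l2⟩
  | an a r ih =>
    refine ⟨0, le_rfl, TL_l _ _ ?_⟩
    rcases v with _ | ⟨j, v⟩
    · rw [List.append_nil]; exact hd_TL _
    · obtain ⟨i, l1, l2⟩ := ih j (c ++ [j]) h.2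
      exact TL_Z h.1 (TL_F l1 (by simpa using l2))

lemma TL_Fw (s c) : Sh c s ⊆ TL (Fw s c) := by
  rintro _ ⟨v, hv, rfl⟩
  obtain ⟨i, h, k⟩ := TL_bk c hv
  exact TL_F h k

lemma Gd_FB {G : A → A → Prop} (hs : ∀ a b, G a b → G b a) {s c}
    (h : ∀ u w, Ad s u w → G (c ++ u) (c ++ w)) (k : ∀ i ≤ nn s, Gd G (bk s c i)) :
    Gd G (Fw s c) ∧ Gd G (Bw s c) := by
  have a : ∀ i ≤ nn s, Gd G (bk s c i) ∧ tl (bk s c i) = hd (bk s c i) := fun i hi =>
    ⟨k i hi, (hd_bk s c i).2.trans (hd_bk s c i).1.symm⟩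
  have b : ∀ t < nn s, G (hd (bk s c t)) (hd (bk s c (t + 1))) := fun t ht => by
    rw [(hd_bk _ _ _).1, (hd_bk _ _ _).1]
    exact h _ _ (tp_ad ht)
  refine ⟨Gd_F hs a b, Gd_F hs (fun t _ => a _ (by omega)) fun t _ => hs _ _ ?_⟩
  rw [show nn s - t = nn s - (t + 1) + 1 by omega]
  exact b _ (by omega)

lemma Gd_bk {G : A → A → Prop} (hs : ∀ a b, G a b → G b a) {s c}
    (h : ∀ u w, Ad s u w → G (c ++ u) (c ++ w)) {i} (hi : i ≤ nn s) : Gd G (bk s c i) := by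
  have up : ∀ s c k, ok s k → (∀ u w, Ad s u w → G (c ++ u) (c ++ w)) →
      ∀ u w, Ad (kid s k) u w → G (c ++ [k] ++ u) (c ++ [k] ++ w) := fun s c k hk h u w l => by
    simpa using h _ _ (.c hk l)
  induction s generalizing c i with
  | lf a => exact .dbl (by simpa using h [] [] (.rf trivial))
  | ct s t i1 i2 =>
    rcases idx hi with k | ⟨i, k, rfl⟩
    · rw [bk_l t c k]; exact i1 (up (ct s t) c 0 (Or.inl rfl) h) k
    · rw [bk_r]; exact i2 (up (ct s t) c 1 (Or.inr rfl) h) k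
  | an a r ih =>
    refine Gd_OB hs (by simpa using h [] [] (.rf trivial)) fun j hj => ?_
    obtain ⟨g1, g2⟩ := Gd_FB hs (up (an a r) c j hj h) fun i => ih j (up (an a r) c j hj h)
    have e : G c (c ++ [j] ++ tp (r j) 0) := by
      rw [tp_0]; simpa using h [] (j :: fs (r j)) (.j (s := an a r) (i := j) hj)
    refine ⟨g1, g2, ?_, ?_, ?_⟩
    · rwa [hd_F, (hd_bk _ _ _).1]
    · rwa [tl_F, (hd_bk _ _ _).2, Nat.sub_self]
    · rw [tl_F, hd_F, (hd_bk _ _ _).2, (hd_bk _ _ _).1, Nat.sub_zero]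

lemma R_bk {s c i} (hi : i ≤ nn s) :
    R (bk s c i) ∅ ∧ RR (bk s c i) ∧ LB (bk s c i) ⊆ TL (bk s c i) := by
  induction s generalizing c i with
  | lf a => exact ⟨.dbl _ _, ⟨trivial, trivial⟩, LB_dbl (hd_TL (dbl c))⟩
  | ct s t i1 i2 =>
    rcases idx hi with k | ⟨i, k, rfl⟩
    · rw [bk_l t c k]; exact i1 k
    · rw [bk_r]; exact i2 k
  | an a r ih =>
    refine and_assoc.1 ⟨R_OB fun j _ => ⟨R_F fun t => ih j, R_F fun t _ => ih j (by omega),
      (LB_Fw _ _).trans (TL_Fw _ _)⟩, (LB_Fw (an a r) c).trans (TL_Fw _ _)⟩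

end Pool.Agent.H.MP_321614_gt
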