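import Mathlib
import Pool.Agent.H.MP_321614_gt.C

set_option autoImplicit false
open Set Relation Pool.Agent.H.MP_424fb5_gt

namespace Pool.Agent.H.MP_321614_gt
open S

variable {P : Pb}

lemma Pr_FB (o : S → Bool → Prop) {s c}
    (h : ∀ t ≤ nn s, ∀ x, o (bk s c t) x → hd (bk s c t) ∈ No P (!x) ∧
      ∀ y, o (bk s c t) y → Pr P (bk s c t) x y)
    (k : ∀ t < nn s, ∃ x, o (bk s c t) x ∧ o (bk s c (t + 1)) x) {x y} (hx : o (bk s c 0) x)
    (hy : o (bk s c (nn s)) y) : Pr P (Fw s c) x y ∧ Pr P (Bw s c) y x := by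
  refine ⟨Pr_F o h k hx hy, Pr_F o (fun t _ => h _ (by omega)) (fun t _ => ?_) hy ?_⟩
  · rw [show nn s - t = nn s - (t + 1) + 1 by omega]
    exact (k _ (by omega)).imp fun _ => And.symm
  · rwa [Nat.sub_self]

lemma side_self (s p) : side s p p = .b := by
  have : side s p (p ++ []) = .b := side_app s p []
  rwa [List.append_nil] at this

lemma sd_ex (d : Sd) : ∃ x, d ≠ .c (!x) := by
  rcases d with x | _ | _
  exacts [⟨x, by simp⟩, ⟨true, by simp⟩, ⟨true, by simp⟩]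

def Hy (P : Pb) (s : S) (c p : A) : Prop := ∀ v, V s v → ∀ x, P.cl (c ++ v) x ↔ side s p v = .c x

def Bs (P : Pb) (s : S) (c : A) : Prop := ∀ t ≤ nn s, ∀ x y, c ++ tp s t ∈ No P (!x) →
  c ++ tp s t ∈ No P (!y) → Pr P (bk s c t) x y

lemma V_tp {s i} (h : i ≤ nn s) : V s (tp s i) := by
  obtain ⟨v, h, e⟩ := LB_bk' (c := []) h (hd_LB _)
  rw [(hd_bk _ _ _).1] at e
  exact (show v = tp s i from e) ▸ h

lemma persF {s c p} (a : At s p) (h : Hy P s c p) (k : Bs P s c) {x y}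
    (hx : side s p (fs s) ≠ .c (!x)) (hy : side s p (ls s) ≠ .c (!y)) :
    Pr P (Fw s c) x y ∧ Pr P (Bw s c) y x := by
  have e : ∀ t ≤ nn s, ∀ x, hd (bk s c t) ∈ No P (!x) ↔ side s p (tp s t) ≠ .c (!x) :=
    fun t ht x => by rw [(hd_bk _ _ _).1]; exact (h _ (V_tp ht) _).not
  refine Pr_FB (fun B x => hd B ∈ No P (!x)) (fun t ht x hx => ⟨hx, fun y hy =>
    k t ht x y ((hd_bk _ _ _).1 ▸ hx) ((hd_bk _ _ _).1 ▸ hy)⟩) (fun t ht => ?_)
    ((e _ (Nat.zero_le _) _).2 (by rwa [tp_0])) ((e _ le_rfl _).2 (by rwa [tp_n]))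
  simp only [e t ht.le, e (t + 1) ht]
  rcases side_ad a (tp_ad ht) with l | l | l
  · rw [l]; simpa using sd_ex _
  · rw [l, side_self]; simpa using sd_ex _
  · rw [l, side_self]; simpa using sd_ex _

lemma LB_arm (a r j c) :
    LB (ct (dbl c) (Fw (r j) (c ++ [j]))) = (c ++ ·) '' Ar (an a r) j := by
  refine subset_antisymm (LB_ct (LB_dbl ⟨[], Or.inl rfl, by simp⟩) ((LB_Fw _ _).trans ?_)) ?_
  · rintro _ ⟨v, hv, rfl⟩
    exact ⟨j :: v, Or.inr ⟨v, hv, rfl⟩, (app1 _ _ _).symm⟩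
  · rintro _ ⟨_, rfl | ⟨v, hv, rfl⟩, rfl⟩
    · simpa [ob] using hd_LB (ct (dbl c) _)
    · exact TL_LB _ (TL_r _ _ (TL_Fw _ _ ⟨v, hv, app1 _ _ _⟩))

lemma pers {s c p} (a : At s p) (h : Hy P s c p)
    (hΦ : ∀ r, (∀ i < 3, LB (r i) = (c ++ p ++ ·) '' Ar (sub s p) i) → P.Φ (an (c ++ p) r))
    (hD : P.D ⊆ Sh (c ++ p) (sub s p)) : Bs P s c := by
  induction p generalizing s c with
  | nil =>
    rcases s with _ | _ | ⟨a, r⟩ <;> try exact a.elim
    rw [List.append_nil] at hΦ hD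
    refine fun t ht x y _ _ => .full (fun z => (LB_bk' ht).trans ?_) (fun L l => ⟨?_, ?_⟩) x y
    · rintro _ ⟨_ | _, hv, rfl⟩ k <;> cases (h _ hv z).1 k
    · exact .up (Or.inr rfl) (.up (Or.inl rfl) (l.r.l.cr (hΦ _ fun i _ => LB_arm _ r i c)))
    · intro x hx
      obtain ⟨v, v1, v2⟩ := TL_Fw _ _ (hD hx)
      exact ⟨v, l.tp v1, v2⟩
  | cons i p ih =>
    have h' : Hy P (kid s i) (c ++ [i]) p := fun v hv x => by
      rw [app1, h (i :: v) ⟨a.1, hv⟩, side_c]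
    have b := ih a.2 h' (app1 c i p ▸ hΦ) (app1 c i p ▸ hD)
    have oth : ∀ k, ok s k → k ≠ i → ∀ u ∈ Sh (c ++ [k]) (kid s k), ∀ x, P.cl u x ↔
        (isL s i && decide (side (kid s i) p (ls (kid s i)) ≠ .c false)) = x := by
      rintro k hk e _ ⟨v, hv, rfl⟩ x
      dsimp only
      rw [app1, h (k :: v) ⟨hk, hv⟩, side_n _ _ _ e, Sd.c.injEq]
    rcases s with _ | ⟨s, t⟩ | ⟨a', r⟩
    · exact a.1.elim
    · intro n hn x y hx hy
      obtain ⟨k, j, k1, k2, k3, k4⟩ := idx' hn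
      rw [k3, ← app1] at hx hy
      rw [k4]
      by_cases e : k = i
      · subst e
        exact b j k2 x y hx hy
      have m := oth k k1 e _ ⟨_, V_tp k2, rfl⟩
      have e1 := (m _).not.1 hx
      have e2 := (m _).not.1 hy
      obtain rfl : x = y := by
        revert e1 e2
        generalize (isL _ _ && _) = z
        cases x <;> cases y <;> cases z <;> decide
      exact .triv fun u hu l => e1 ((oth k k1 e u (LB_bk' k2 hu) _).1 l)
    · intro n hn x y hx hy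
      have n0 : ∀ x, c ++ [] ∈ No P (!x) → x = false := fun x hx => by
        cases x
        exacts [rfl, (hx ((h [] trivial _).2 rfl)).elim]
      obtain rfl := n0 x hx
      obtain rfl := n0 y hy
      refine Pr_OB (by simpa [tp] using hx) fun j hj => ?_
      by_cases e : j = i
      · subst e
        obtain ⟨y, hy⟩ := sd_ex (side (r j) p (ls (r j)))
        refine ⟨y, persF a.2 h' b ?_ hy⟩
        rcases side_fs a.2 with l | l
        · rw [l]; simp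
        · rw [l, side_self]; simp
      · have : Sh (c ++ [j]) (r j) ⊆ No P (!false) := fun u hu l => by
          simpa [isL] using (oth j hj e u hu _).1 l
        exact ⟨false, .triv ((LB_Fw _ _).trans this), .triv ((LB_Bw _ _).trans this)⟩

lemma persist {s p} (m : ℕ) (a : At s p) {L} (l : Co (Fw s [m]) L)
    (h : ∀ x, ∃ v, side s p v = .c x ∧ m :: v ∈ lab (Fw s [m]) '' L) :
    Cr (fun μ => rl μ = m :: p ∧ ∀ i < 3, LB (kid μ i) = (m :: p ++ ·) '' Ar (sub s p) i)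
      (Fw s [m]) L ∧ Sh (m :: p) (sub s p) ⊆ lab (Fw s [m]) '' L := by
  let P : Pb := ⟨fun u x => side s p u.tail = .c x, fun μ => rl μ = m :: p ∧
    ∀ i < 3, LB (kid μ i) = (m :: p ++ ·) '' Ar (sub s p) i, Sh (m :: p) (sub s p)⟩
  have h' : Hy P s [m] p := fun _ _ _ => Iff.rfl
  obtain ⟨x, hx⟩ := sd_ex (side s p (fs s))
  obtain ⟨y, hy⟩ := sd_ex (side s p (ls s))
  refine (persF a h' (pers a h' (fun r k => ⟨rfl, k⟩) subset_rfl) hx hy).1 L l fun z => ?_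
  obtain ⟨v, v1, w, w1, w2⟩ := h z
  exact Or.inl ⟨w, w1, by rw [w2]; exact v1⟩

lemma trT (hD : P.D = ∅) {s c x y i j} (e : x ≠ y) (h1 : i < j) (h2 : j < nn s)
    (a1 : ∀ u, P.cl u x → u = c ++ tp s i) (a2 : ∀ u, P.cl u y → u = c ++ tp s (j + 1))
    (hΦ : ∀ a r, (∀ k, c ++ tp s (i + 1) ∈ LB (r k) ∧ c ++ tp s j ∈ LB (r k)) → P.Φ (an a r)) :
    Pr P (Fw s c) x y ∧ Pr P (Bw s c) y x := by
  have n : ∀ z k, k ≤ nn s → (∀ u, P.cl u z → u = c ++ tp s k) → ∀ t ≤ nn s, t ≠ k →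
      LB (bk s c t) ⊆ No P z := fun z k hk a t ht e u hu l => by
    obtain ⟨w, -, w2⟩ := LB_bk ht hu
    exact e (tp_inj ht hk (List.append_cancel_left ((a u l).symm.trans w2.symm)))
  refine ⟨Tr_F hD e h1 h2 (fun t _ => n _ _ h2 a2 t (by omega) (by omega))
    (fun t _ _ => n _ _ (by omega) a1 t (by omega) (by omega)) (by simpa only [hd_bk] using hΦ),
    Tr_F hD (i := nn s - (j + 1)) (j := nn s - (i + 1)) e.symm (by omega) (by omega)
    (fun t _ => n _ _ (by omega) a1 _ (by omega) (by omega))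
    (fun t _ _ => n _ _ h2 a2 _ (by omega) (by omega)) ?_⟩
  simp only [hd_bk]
  rw [show nn s - (nn s - (j + 1) + 1) = j by omega, show nn s - (nn s - (i + 1)) = i + 1 by omega]
  exact fun a r k => hΦ a r fun l => (k l).symm

def PT (c u w u' w' : A) : Pb := ⟨fun a z => a = c ++ cond z w u,
  fun μ => ∀ k, c ++ u' ∈ LB (kid μ k) ∧ c ++ w' ∈ LB (kid μ k), ∅⟩

lemma trTop {s u w} (hu : Tp s u) (hw : Tp s w) : Ad s u w ∨ ∃ u' w' x y, Ad s u u' ∧ Ad s w w' ∧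
    ∀ c, Pr (PT c u w u' w') (Fw s c) x y ∧ Pr (PT c u w u' w') (Bw s c) y x := by
  obtain ⟨i, hi, rfl⟩ := hu.idx
  obtain ⟨j, hj, rfl⟩ := hw.idx
  rcases (show i = j ∨ j = i + 1 ∨ i = j + 1 ∨ (∃ k, j = k + 1 ∧ i < k) ∨ ∃ k, i = k + 1 ∧ j < k by
    rcases lt_trichotomy i j with h | h | h
    · by_cases e : j = i + 1
      exacts [by omega, Or.inr (Or.inr (Or.inr (Or.inl ⟨j - 1, by omega, by omega⟩)))]
    · omega
    · by_cases e : i = j + 1
      exacts [by omega, Or.inr (Or.inr (Or.inr (Or.inr ⟨i - 1, by omega, by omega⟩)))])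
    with rfl | rfl | rfl | ⟨j, rfl, h⟩ | ⟨i, rfl, h⟩
  · exact Or.inl hu.V.rf
  · exact Or.inl (tp_ad hj)
  · exact Or.inl (tp_ad hi).sy
  · exact Or.inr ⟨_, _, false, true, tp_ad (by omega), (tp_ad hj).sy, fun c =>
      trT rfl (by simp) h hj (fun _ => id) (fun _ => id) fun _ _ => id⟩
  · exact Or.inr ⟨_, _, true, false, (tp_ad hi).sy, tp_ad (by omega), fun c =>
      trT rfl (by simp) h hi (fun _ => id) (fun _ => id) fun _ _ k l => (k l).symm⟩

lemma PT_up (c : A) (i u w u' w') :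
    PT (c ++ [i]) u w u' w' = PT c (i :: u) (i :: w) (i :: u') (i :: w') := by
  simp only [PT, app1, Pb.mk.injEq, and_true]
  funext a z
  cases z <;> rfl

def Dp (s : S) (u w u' w' : A) (x : Bool) : Prop := ∀ c, ∀ t ≤ nn s,
  c ++ tp s t ∈ No (PT c u w u' w') (!x) ∧ Pr (PT c u w u' w') (bk s c t) x x

lemma Dp.FB {s u w u' w' x} (h : Dp s u w u' w' x) (c) :
    Pr (PT c u w u' w') (Fw s c) x x ∧ Pr (PT c u w u' w') (Bw s c) x x :=
  Pr_FB (fun _ y => y = x) (by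
    rintro t ht _ rfl
    refine ⟨(hd_bk _ _ _).1 ▸ (h c t ht).1, ?_⟩
    rintro _ rfl
    exact (h c t ht).2) (fun _ _ => ⟨x, rfl, rfl⟩) rfl rfl

lemma trDp {s u w} (h : SL s u w) : (Tp s u ∧ Tp s w) ∨ Ad s u w ∨
    ∃ u' w' x, Ad s u u' ∧ Ad s w w' ∧ Dp s u w u' w' x := by
  induction h with
  | top a b => exact Or.inl ⟨a, b⟩
  | @c s i u w hi _ ih =>
    have oth : ∀ c u' w' k, k ≠ i → ∀ z, Sh (c ++ [k]) (kid s k) ⊆
        No (PT c (i :: u) (i :: w) u' w') z := by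
      rintro c u' w' k e z _ ⟨v, -, rfl⟩ l
      cases z <;> simp [PT, e] at l
    rcases s with _ | ⟨s, t⟩ | ⟨a, r⟩
    · exact hi.elim
    · rcases ih with ⟨a, b⟩ | a | ⟨u', w', x, a1, a2, a3⟩
      · exact Or.inl ⟨⟨trivial, hi, a⟩, trivial, hi, b⟩
      · exact Or.inr (Or.inl (.c hi a))
      refine Or.inr (Or.inr ⟨_, _, x, .c hi a1, .c hi a2, fun c n hn => ?_⟩)
      obtain ⟨k, j, k1, k2, k3, k4⟩ := idx' hn
      rw [k3, ← app1, k4]
      by_cases e : k = i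
      · subst e
        exact PT_up c k u w u' w' ▸ a3 _ j k2
      · exact ⟨oth _ _ _ k e _ ⟨_, V_tp k2, rfl⟩, .triv ((LB_bk' k2).trans (oth _ _ _ k e _))⟩
    · right
      obtain a | ⟨u', w', x, y, a1, a2, a3⟩ : Ad (r i) u w ∨ ∃ u' w' x y, Ad (r i) u u' ∧
          Ad (r i) w w' ∧ ∀ c, Pr (PT c u w u' w') (Fw (r i) c) x y ∧
          Pr (PT c u w u' w') (Bw (r i) c) y x := by
        rcases ih with ⟨a, b⟩ | a | ⟨u', w', x, a1, a2, a3⟩
        exacts [trTop a b, Or.inl a, Or.inr ⟨u', w', x, x, a1, a2, a3.FB⟩]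
      · exact Or.inl (.c hi a)
      refine Or.inr ⟨_, _, x, .c hi a1, .c hi a2, fun c n _ => ?_⟩
      have e : c ∈ No (PT c (i :: u) (i :: w) (i :: u') (i :: w')) (!x) := fun l => by
        cases x <;> simp [PT] at l
      refine ⟨by simpa [tp] using e, Pr_OB e fun j _ => ?_⟩
      by_cases f : j = i
      · subst f
        exact ⟨y, PT_up c j u w u' w' ▸ a3 _⟩
      · exact ⟨x, .triv ((LB_Fw _ _).trans (oth _ _ _ j f _)),
          .triv ((LB_Bw _ _).trans (oth _ _ _ j f _))⟩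

lemma trig {s u w} (h : SL s u w) : Ad s u w ∨ ∃ u' w', Ad s u u' ∧ Ad s w w' ∧ ∀ c L,
    Co (Fw s c) L → c ++ u ∈ lab (Fw s c) '' L → c ++ w ∈ lab (Fw s c) '' L →
    Cr (fun μ => ∀ k, c ++ u' ∈ LB (kid μ k) ∧ c ++ w' ∈ LB (kid μ k)) (Fw s c) L := by
  obtain a | ⟨u', w', x, y, a1, a2, a3⟩ : Ad s u w ∨ ∃ u' w' x y, Ad s u u' ∧
      Ad s w w' ∧ ∀ c, Pr (PT c u w u' w') (Fw s c) x y ∧ Pr (PT c u w u' w') (Bw s c) y x := by
    rcases trDp h with ⟨a, b⟩ | a | ⟨u', w', x, a1, a2, a3⟩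
    exacts [trTop a b, Or.inl a, Or.inr ⟨u', w', x, x, a1, a2, a3.FB⟩]
  · exact Or.inl a
  refine Or.inr ⟨u', w', a1, a2, fun c L l ⟨v, v1, v2⟩ ⟨z, z1, z2⟩ => ((a3 c).1 L l fun b => ?_).1⟩
  cases b
  exacts [Or.inl ⟨v, v1, v2⟩, Or.inl ⟨z, z1, z2⟩]

end Pool.Agent.H.MP_321614_gt
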