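import Mathlib
import Pool.Agent.H.MP_321614_gt.D

set_option autoImplicit false
open Set Relation Pool.Agent.H.MP_424fb5_gt Metric

namespace Pool.Agent.H.MP_321614_gt
open S

def T : ℕ → S
  | 0 => ct (dbl []) (dbl [])
  | m + 1 => Fw (T m) [m]

def AdT (m : ℕ) (x y : A) : Prop := ∃ u w, Ad (T m) u w ∧ x = m :: u ∧ y = m :: w

lemma AdT.sy {m} (x y : A) : AdT m x y → AdT m y x := fun ⟨_, _, h, a, b⟩ => ⟨_, _, h.sy, b, a⟩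

lemma GdT (m : ℕ) : G2 (AdT m) (T (m + 1)) :=
  (Gd_FB AdT.sy (fun u w h => ⟨u, w, h, rfl, rfl⟩) fun _ hi =>
    Gd_bk AdT.sy (fun u w h => ⟨u, w, h, rfl, rfl⟩) hi).1.1

def be : A → A
  | [] => []
  | k :: a => lab (T k) a

def sy : Sy A where
  V m := Sh [m] (T m)
  Ad := AdT
  β := be
  fin _ := (V_fin _).image _
  mem := fun ⟨u, _, h, a, _⟩ => ⟨u, h.mem, a.symm⟩
  rf := fun ⟨u, h, a⟩ => ⟨u, u, V.rf h, a.symm, a.symm⟩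
  sy := AdT.sy _ _
  c2 := by
    rintro m _ _ _ ⟨u, v, h, rfl, rfl⟩ ⟨_, w, k, e, rfl⟩
    cases e
    exact GdT m _ _ _ h k

lemma be_V (n : ℕ) : sy.β '' sy.V (0 + (n + 1)) = sy.V (0 + n) := by
  refine subset_antisymm ?_ fun x hx => ?_
  · rintro _ ⟨_, ⟨v, hv, rfl⟩, rfl⟩
    exact LB_Fw _ _ ⟨v, hv, rfl⟩
  · obtain ⟨v, v1, v2⟩ := TL_LB _ (TL_Fw _ _ hx)
    exact ⟨_, ⟨v, v1, rfl⟩, v2⟩

lemma thr {m x} (h : x ∈ sy.V m) : ∃ z : Z sy, z.1 m = x := by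
  obtain ⟨z, -, e⟩ := lift (s := sy) (b := 0) (fun _ => subset_rfl) be_V (m := m)
    (x := x) (by rwa [zero_add])
  exact ⟨z, by rwa [zero_add] at e⟩

variable {M : Type} [MetricSpace M] {q : Z sy → M}

def Lm (q : Z sy → M) (L : Set M) (m : ℕ) : Set A := dv (pj q L m) m

lemma Lm_co (h : Re sy q) {L} (hL : IsPreconnected L) (m) : Co (T m) (Lm q L m) := by
  have e : List.tail '' pj q L m = Lm q L m := by
    refine subset_antisymm ?_ fun v hv => ⟨_, hv, rfl⟩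
    rintro _ ⟨x, hx, rfl⟩
    obtain ⟨v, -, rfl⟩ := pj_sub hx
    exact hx
  refine ⟨e ▸ (h.pj_cn hL m).image _ ?_, fun v hv => ?_⟩
  · rintro _ _ ⟨u, w, k, rfl, rfl⟩
    exact k
  · obtain ⟨u, k, e⟩ := pj_sub hv
    cases e
    exact k

lemma Lm_lab {L m v} : m :: v ∈ lab (T (m + 1)) '' Lm q L (m + 1) ↔ v ∈ Lm q L m := by
  constructor
  · rintro ⟨u, hu, e⟩
    exact show m :: v ∈ pj q L m from e ▸ pj_it (t := 1) hu
  · rintro ⟨z, z1, z2⟩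
    obtain ⟨u, -, e⟩ := (z.2 (m + 1)).1
    refine ⟨u, ⟨z, z1, e.symm⟩, ?_⟩
    rw [← z2, ← (z.2 m).2, ← e]
    rfl

def Cs (q : Z sy → M) (L : Set M) (n : ℕ) (p : A) : Prop :=
  At (T n) p ∧ ∀ x, ∃ v ∈ Lm q L n, side (T n) p v = .c x

def Am (n : ℕ) (p : A) (i : ℕ) : Set A := (n :: p ++ ·) '' Ar (sub (T n) p) i

lemma step (h : Re sy q) {L} (hL : IsPreconnected L) {n p} (k : Cs q L n p) :
    ∃ p', Cs q L (n + 1) p' ∧ be ((n + 1) :: p') = n :: p ∧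
      ∀ i < 3, be '' Am (n + 1) p' i = Am n p i ∧ Am n p i ⊆ pj q L n := by
  obtain ⟨⟨p', p1, p2, p3, p4⟩, d⟩ := persist n k.1 (Lm_co h hL (n + 1)) fun x =>
    let ⟨v, v1, v2⟩ := k.2 x; ⟨v, v2, Lm_lab.2 v1⟩
  have e : ∀ w, be ((n + 1) :: p' ++ w) = lab (sub (T (n + 1)) p') w := fun w => lab_app _ _ _
  obtain ⟨a, r, f⟩ := k.1.isA
  obtain ⟨a', r', f'⟩ := At.isA (s := T (n + 1)) p1
  refine ⟨p', ⟨p1, p2⟩, by simpa using (e []).trans p3, fun i hi => ⟨subset_antisymm ?_ ?_, ?_⟩⟩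
  · rintro _ ⟨_, ⟨_, rfl | ⟨w, hw, rfl⟩, rfl⟩, rfl⟩
    · refine ⟨[], f ▸ Or.inl rfl, ?_⟩
      rw [e, f']
      rw [show sub (Fw (T n) [n]) p' = _ from f'] at p3
      exact (List.append_nil _).trans p3.symm
    · exact e _ ▸ (p4 i hi).subset ⟨w, hw, rfl⟩
  · intro x hx
    obtain ⟨w, w1, w2⟩ := (p4 i hi).symm.subset hx
    exact ⟨_, ⟨i :: w, Or.inr ⟨w, w1, rfl⟩, rfl⟩, (e _).trans w2⟩
  · rintro _ ⟨w, hw, rfl⟩
    exact Lm_lab.1 (d ⟨w, Ar_V (by rw [f]; exact hi) hw, rfl⟩)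

lemma Am_cn {n p i} (a : At (T n) p) (hi : i < 3) : Cn (sy.Ad n) (Am n p i) := by
  obtain ⟨b, r, f⟩ := a.isA
  exact (Ar_cn' (by rw [f]; exact hi) (V_cn _)).image _ fun _ _ l => ⟨_, _, a.ad l, rfl, rfl⟩

lemma arms (h : Re sy q) {L} (hL : IsPreconnected L) (hc : IsClosed L) {o p} (k : Cs q L o p) :
    ∃ (zb : Z sy) (C : ℕ → Set M), zb.1 o = o :: p ∧ ∀ i < 3, IsCompact (C i) ∧
      IsPreconnected (C i) ∧ C i ⊆ L ∧ q zb ∈ C i ∧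
      (∀ x ∈ C i, ∃ z, q z = x ∧ z.1 o ∈ Am o p i) ∧ ∀ v ∈ Am o p i, ∃ z, q z ∈ C i ∧ z.1 o = v := by
  choose g g1 g2 g3 using fun n (p : {p // Cs q L (o + n) p}) => step h hL p.2
  let P : ∀ n, {p // Cs q L (o + n) p} := fun n => Nat.rec ⟨p, k⟩ (fun n x => ⟨g n x, g1 n x⟩) n
  have b : ∀ n i, (o + n) :: (P n).1 ∈ Am (o + n) (P n).1 i := fun n i => by
    obtain ⟨a, r, f⟩ := (P n).2.1.isA
    exact ⟨[], f ▸ Or.inl rfl, by simp⟩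
  have v : ∀ i < 3, ∀ n, Am (o + n) (P n).1 i ⊆ sy.V (o + n) := fun i hi n =>
    (g3 n _ i hi).2.trans pj_sub
  obtain ⟨zb, z1, z2⟩ := lift (s := sy) (b := o) (S := fun n => {(o + n) :: (P n).1})
    (fun n => singleton_subset_iff.2 (v 0 (by omega) n (b n 0)))
    (fun n => image_singleton.trans (congrArg _ (g2 n (P n)))) (m := 0) rfl
  refine ⟨zb, fun i => th q o fun n => Am (o + n) (P n).1 i, z2, fun i hi => ⟨h.cpt _ _,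
    h.th_pre (v i hi) (fun n => (g3 n _ i hi).1) fun n => Am_cn (P n).2.1 hi,
    h.th_sub hc fun n => (g3 n _ i hi).2, ⟨zb, fun n => z1 n ▸ b n i, rfl⟩, ?_, fun x hx => ?_⟩⟩
  · rintro _ ⟨z, hz, rfl⟩
    exact ⟨z, rfl, hz 0⟩
  · obtain ⟨z, y1, y2⟩ := lift (s := sy) (b := o) (v i hi) (fun n => (g3 n _ i hi).1) (m := 0) hx
    exact ⟨z, ⟨z, y1, rfl⟩, y2⟩

lemma mono_pre {Y : Type} [MetricSpace Y] [CompactSpace M] {f : M → Y} (hf : Continuous f)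
    (hm : ∀ y, IsConnected (f ⁻¹' {y})) {K : Set Y} (hK : IsPreconnected K) :
    IsPreconnected (f ⁻¹' K) := by
  refine isPreconnected_closed_iff.2 fun a b ha hb c ⟨x, x1, x2⟩ ⟨y, y1, y2⟩ => ?_
  obtain ⟨_, k, ⟨u, u1, rfl⟩, w, w1, e⟩ := isPreconnected_closed_iff.1 hK (f '' a) (f '' b)
    (hf.isClosedMap _ ha) (hf.isClosedMap _ hb) (fun t ht => by
      obtain ⟨u, rfl⟩ := (hm t).1
      exact (c ht).imp (mem_image_of_mem f) (mem_image_of_mem f))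
    ⟨_, x1, x, x2, rfl⟩ ⟨_, y1, y, y2, rfl⟩
  obtain ⟨t, t1, t2⟩ := isPreconnected_closed_iff.1 (hm (f u)).2 a b ha hb
    (fun t ht => c (show f t ∈ K from ht ▸ k)) ⟨u, rfl, u1⟩ ⟨w, e, w1⟩
  exact ⟨t, show f t ∈ K from t1 ▸ k, t2⟩

lemma triod {Y : Type} [MetricSpace Y] {K : Set Y} (hK : IsCompact K) (C : ℕ → Set Y) (b : Y)
    (y : ℕ → Y) (h : ∀ i < 3, IsClosed (C i) ∧ IsPreconnected (C i) ∧ C i ⊆ K ∧ b ∈ C i ∧
      y i ∈ C i ∧ ∀ j < 3, j ≠ i → y j ∉ C i) : ∃ ε > 0, ∀ (n : ℕ) (U : Fin n → Set Y),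
    (∀ i, IsOpen (U i)) → (∀ i, diam (U i ∩ K) < ε) → K ⊆ ⋃ i, U i →
    ¬ ∀ i j, (U i ∩ U j ∩ K).Nonempty ↔ (i.val ≤ j.val + 1 ∧ j.val ≤ i.val + 1) := by
  obtain ⟨ε, e1, e2⟩ : ∃ ε > 0, ∀ i : Fin 3, ∀ j : Fin 3, j ≠ i → ∀ c ∈ C i, ε ≤ dist c (y j) := by
    have : ∀ᶠ ε in nhdsWithin (0 : ℝ) (Ioi 0), ∀ i j : Fin 3, j ≠ i → ∀ c ∈ C i,
        ε ≤ dist c (y j) := by
      simp only [Filter.eventually_all]
      intro i j e
      obtain ⟨δ, d1, d2⟩ := isOpen_iff.1 (h i i.2).1.isOpen_compl (y j)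
        ((h i i.2).2.2.2.2.2 j j.2 fun l => e (Fin.ext l))
      filter_upwards [nhdsWithin_le_nhds (Iio_mem_nhds d1)] with ε hε c hc
      exact hε.le.trans (not_lt.1 fun l => d2 l hc)
    exact (eventually_mem_nhdsWithin.and this).exists
  refine ⟨ε, e1, fun n U u1 u2 u3 u4 => ?_⟩
  have mid : ∀ i < 3, ∀ a c e : Fin n, (C i ∩ U a).Nonempty → (C i ∩ U e).Nonempty → a ≤ c →
      c ≤ e → (C i ∩ U c).Nonempty := fun i hi a c e k1 k2 l1 l2 => by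
    by_contra k
    obtain ⟨x, x1, x2, x3⟩ := (h i hi).2.1 (⋃ t < c, U t) (⋃ t > c, U t)
      (isOpen_biUnion fun t _ => u1 t) (isOpen_biUnion fun t _ => u1 t) (fun x hx => by
        obtain ⟨t, ht⟩ := mem_iUnion.1 (u3 ((h i hi).2.2.1 hx))
        rcases lt_trichotomy t c with l | rfl | l
        exacts [Or.inl (mem_biUnion l ht), (k ⟨x, hx, ht⟩).elim, Or.inr (mem_biUnion l ht)])
      (k1.mono (inter_subset_inter_right _ (subset_biUnion_of_mem (u := U)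
        (l1.lt_of_ne fun l => k (l ▸ k1)))))
      (k2.mono (inter_subset_inter_right _ (subset_biUnion_of_mem (u := U)
        (l2.lt_of_ne fun l => k (l ▸ k2)))))
    obtain ⟨s, s1, s2⟩ := mem_iUnion₂.1 x2
    obtain ⟨t, t1, t2⟩ := mem_iUnion₂.1 x3
    have := (u4 s t).1 ⟨x, ⟨s2, t2⟩, (h i hi).2.2.1 x1⟩
    omega
  choose k hk using fun i : Fin 3 => mem_iUnion.1 (u3 ((h i i.2).2.2.1 (h i i.2).2.2.2.2.1))
  obtain ⟨o, ho⟩ := mem_iUnion.1 (u3 ((h 0 (by omega)).2.2.1 (h 0 (by omega)).2.2.2.1))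
  have key : ∀ i j : Fin 3, j ≠ i → ¬ (o ≤ k j ∧ k j ≤ k i ∨ k i ≤ k j ∧ k j ≤ o) :=
    fun i j e l => by
      have a1 : (C i ∩ U o).Nonempty := ⟨b, (h i i.2).2.2.2.1, ho⟩
      have a2 : (C i ∩ U (k i)).Nonempty := ⟨_, (h i i.2).2.2.2.2.1, hk i⟩
      obtain ⟨c, c1, c2⟩ := l.elim (fun l => mid i i.2 _ _ _ a1 a2 l.1 l.2)
        fun l => mid i i.2 _ _ _ a2 a1 l.1 l.2
      exact (e2 i j e c c1).not_gt ((dist_le_diam_of_mem (hK.isBounded.subset inter_subset_right)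
        ⟨c2, (h i i.2).2.2.1 c1⟩ ⟨hk j, (h j j.2).2.2.1 (h j j.2).2.2.2.2.1⟩).trans_lt (u2 _))
  have := key 0 1 (by decide)
  have := key 1 0 (by decide)
  have := key 0 2 (by decide)
  have := key 2 0 (by decide)
  have := key 1 2 (by decide)
  have := key 2 1 (by decide)
  omega

lemma RRT (m : ℕ) : RR (T (m + 1)) := (R_F fun _ => R_bk).2

lemma far (h : Re sy q) {Y : Type} [MetricSpace Y] {f : M → Y} {η : ℝ} {m : ℕ} {L : Set M}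
    (hL : IsPreconnected L) (k : ∀ z w : Z sy, sy.Ad m (z.1 m) (w.1 m) → dist (f (q z)) (f (q w)) < η)
    {x y : Z sy} (hx : q x ∈ L) (hy : q y ∈ L) (d : 16 * η ≤ dist (f (q x)) (f (q y))) :
    ∃ p, Cs q L (m + 2) p ∧ ∀ b : Y, ∀ i, ∃ v ∈ LB (kid (sub (T (m + 2)) p) i), ∀ z : Z sy,
      z.1 (m + 1) = v → η ≤ dist (f (q z)) b := by
  have e0 : ∀ z w : Z sy, z.1 m = w.1 m → dist (f (q z)) (f (q w)) < η := fun z w e =>
    k z w (e ▸ sy.rf (z.2 m).1)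
  have lb : ∀ (z : Z sy) u, z.1 (m + 1) = (m + 1) :: u → lab (T (m + 1)) u = z.1 m :=
    fun z u e => by rw [← (z.2 m).2, e]; rfl
  obtain ⟨u, -, hu⟩ := (x.2 (m + 1)).1
  obtain ⟨w, -, hw⟩ := (y.2 (m + 1)).1
  obtain ⟨a, b, c1, c2, c3⟩ := (RRT m).pair (Lm_co h hL (m + 1)) (x := u) (y := w)
    ⟨x, hx, hu.symm⟩ ⟨y, hy, hw.symm⟩
  have : ∃ (z z' : Z sy) (u w : A), q z ∈ L ∧ q z' ∈ L ∧ z.1 (m + 1) = (m + 1) :: u ∧
      z'.1 (m + 1) = (m + 1) :: w ∧ SL (T (m + 1)) u w ∧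
      4 * η ≤ dist (f (q z)) (f (q z')) := by
    obtain ⟨u1, ⟨z1, a1, a2⟩, w1, ⟨y1, a3, a4⟩, a5, a6, a7⟩ := c1
    obtain ⟨u2, ⟨z2, b1, b2⟩, w2, ⟨y2, b3, b4⟩, b5, b6, b7⟩ := c2
    obtain ⟨u3, ⟨z3, c1, c2⟩, w3, ⟨y3, c3, c4⟩, c5, c6, c7⟩ := c3
    by_contra n
    push Not at n
    have := n _ _ _ _ a1 a3 a2 a4 a5
    have := n _ _ _ _ b1 b3 b2 b4 b5
    have := n _ _ _ _ c1 c3 c2 c4 c5
    have := e0 x z1 (by rw [← lb x u hu.symm, ← lb z1 _ a2, a6])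
    have := e0 y1 z2 (by rw [← lb y1 _ a4, ← lb z2 _ b2, a7, b6])
    have := e0 y2 z3 (by rw [← lb y2 _ b4, ← lb z3 _ c2, b7, c6])
    have := e0 y3 y (by rw [← lb y w hw.symm, ← lb y3 _ c4, c7])
    have := dist_triangle4 (f (q x)) (f (q z1)) (f (q y1)) (f (q z2))
    have := dist_triangle4 (f (q z2)) (f (q y2)) (f (q z3)) (f (q y3))
    have := dist_triangle4 (f (q x)) (f (q z2)) (f (q y3)) (f (q y))
    linarith
  obtain ⟨z, z', u, w, a1, a2, a3, a4, a5, a6⟩ := this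
  have ad : ∀ (z z' : Z sy) u w, z.1 (m + 1) = (m + 1) :: u → z'.1 (m + 1) = (m + 1) :: w →
      Ad (T (m + 1)) u w → dist (f (q z)) (f (q z')) < η := fun z z' u w e1 e2 l =>
    k _ _ (Z.down m.le_succ ⟨u, w, l, e1, e2⟩)
  rcases trig a5 with l | ⟨u', w', l1, l2, l3⟩
  · have := ad _ _ _ _ a3 a4 l
    have := e0 x x rfl
    rw [dist_self] at this
    linarith
  obtain ⟨p, p1, p2, p3⟩ := l3 [m + 1] _ (Lm_co h hL (m + 2)) (Lm_lab.2 ⟨z, a1, a3⟩)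
    (Lm_lab.2 ⟨z', a2, a4⟩)
  refine ⟨p, ⟨p1, p2⟩, fun b i => ?_⟩
  have := dist_triangle_right (f (q z)) (f (q z')) b
  by_cases e : 2 * η ≤ dist (f (q z)) b
  · refine ⟨_, (p3 i).1, fun t ht => ?_⟩
    have := ad _ _ _ _ a3 ht l1
    have := dist_triangle (f (q z)) (f (q t)) b
    linarith
  · refine ⟨_, (p3 i).2, fun t ht => ?_⟩
    have := ad _ _ _ _ a4 ht l2
    have := dist_triangle (f (q z')) (f (q t)) b
    linarith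

theorem main : ∃ (M : Type) (_ : MetricSpace M), CompactSpace M ∧ ConnectedSpace M ∧ Nontrivial M ∧
    ∀ (Y : Type) (_ : MetricSpace Y) (f : M → Y),
      Continuous f → Function.Surjective f → (∀ y : Y, IsConnected (f ⁻¹' {y})) →
      ¬ ∃ K : Set Y, IsCompact K ∧ IsConnected K ∧ K.Nontrivial ∧
        ∀ ε : ℝ, 0 < ε → ∃ (n : ℕ) (U : Fin n → Set Y), (∀ i, IsOpen (U i)) ∧
          (∀ i, Metric.diam (U i ∩ K) < ε) ∧ K ⊆ ⋃ i, U i ∧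
          (∀ i j, (U i ∩ U j ∩ K).Nonempty ↔ (i.val ≤ j.val + 1 ∧ j.val ≤ i.val + 1)) := by
  obtain ⟨M, _, q, h⟩ := exists_re sy
  have u : th q 0 (fun n => sy.V (0 + n)) = univ := eq_univ_of_forall fun x => by
    obtain ⟨z, rfl⟩ := h.sur x
    exact ⟨z, fun n => (z.2 _).1, rfl⟩
  obtain ⟨z0, e0⟩ := thr (m := 0) ⟨_, V_fs _, rfl⟩
  obtain ⟨z1, e1⟩ := thr (m := 0) ⟨_, V_ls _, rfl⟩
  have : Nonempty M := ⟨q z0⟩
  have : CompactSpace M := ⟨u ▸ h.cpt _ _⟩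
  refine ⟨M, inferInstance, this, { toPreconnectedSpace := ⟨u ▸ h.th_pre (fun _ => subset_rfl) be_V
    fun n => (V_cn _).image _ fun _ _ l => ⟨_, _, l, rfl, rfl⟩⟩, toNonempty := ‹_› },
    ⟨q z0, q z1, fun e => ?_⟩, ?_⟩
  · obtain ⟨a, b, l, l1, l2⟩ := h.ad e 0
    rw [e0] at l1
    rw [e1] at l2
    cases l1
    cases l2
    rcases Ad.inv l with ⟨_, k, -⟩ | ⟨k, -⟩ <;> cases k
  rintro Y _ f hf hs hm ⟨K, k1, k2, ⟨x', a1, y', b1, ab⟩, k4⟩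
  obtain ⟨x, rfl⟩ := (hs.comp h.sur) x'
  obtain ⟨y, rfl⟩ := (hs.comp h.sur) y'
  have hL := mono_pre hf hm k2.2
  obtain ⟨δ, d1, d2⟩ := Metric.uniformContinuous_iff.1 (CompactSpace.uniformContinuous_of_continuous
    hf) (dist (f (q x)) (f (q y)) / 16) (div_pos (dist_pos.2 ab) (by norm_num : (0 : ℝ) < 16))
  obtain ⟨m, hm'⟩ := h.a δ d1
  have k := fun z w l => d2 (hm' z w l)
  obtain ⟨p, p1, p2⟩ := far h hL k a1 b1 (by linarith)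
  obtain ⟨zb, C, c1, c2⟩ := arms h hL (k1.isClosed.preimage hf) p1
  obtain ⟨a, r, e⟩ := p1.1.isA
  have : ∀ i, ∃ (z : Z sy) (w : A), i < 3 → q z ∈ C i ∧ z.1 (m + 2) = (m + 2) :: (p ++ i :: w) ∧
      dist (f (q x)) (f (q y)) / 16 ≤ dist (f (q z)) (f (q zb)) := fun i => by
    by_cases hi : i < 3
    swap
    · exact ⟨x, [], fun l => (hi l).elim⟩
    obtain ⟨_, ⟨w, w1, rfl⟩, w2⟩ := p2 (f (q zb)) i
    obtain ⟨z, y1, y2⟩ := (c2 i hi).2.2.2.2.2 _ ⟨i :: w, Or.inr ⟨w, w1, rfl⟩, rfl⟩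
    refine ⟨z, w, fun _ => ⟨y1, y2, w2 z ?_⟩⟩
    rw [← (z.2 (m + 1)).2, y2]
    exact lab_app _ _ _
  choose z w hz using this
  obtain ⟨ε, ε1, ε2⟩ := triod k1 (fun i => f '' C i) (f (q zb)) (fun i => f (q (z i))) fun i hi => by
    obtain ⟨l1, l2, l3, l4, l5, -⟩ := c2 i hi
    refine ⟨(l1.image hf).isClosed, l2.image _ hf.continuousOn, image_subset_iff.2 l3,
      ⟨_, l4, rfl⟩, ⟨_, (hz i hi).1, rfl⟩, ?_⟩
    rintro j hj n ⟨_, t1, t2⟩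
    obtain ⟨t, rfl, v, v1, v2⟩ := l5 _ t1
    obtain ⟨-, y2, y3⟩ := hz j hj
    have co := Lm_co h (hm (f (q (z j)))).2 (m + 2)
    have nb : p ∉ Lm q (f ⁻¹' {f (q (z j))}) (m + 2) := fun ⟨s, s1, s2⟩ =>
      y3.not_gt (s1 ▸ k s zb (Z.down (m.le_add_right 2) (by rw [s2, c1]; exact sy.rf (c1 ▸ (zb.2 _).1))))
    have := co.1.ind (fun v => side (T (m + 2)) p v = .r j) (fun a ha b hb l k => by
      rcases side_ad p1.1 l with l | rfl | rfl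
      exacts [l ▸ k, (nb ha).elim, (nb hb).elim]) (x := p ++ j :: w j) (y := p ++ v)
      ⟨_, rfl, y2⟩ ⟨t, t2, v2.symm⟩ (side_app _ _ _)
    rw [side_app] at this
    rw [e] at v1
    rcases v1 with rfl | ⟨v, -, rfl⟩
    · cases this
    · exact n (Sd.r.inj this).symm
  obtain ⟨n, U, u1, u2, u3, u4⟩ := k4 ε ε1
  exact ε2 n U u1 u2 u3 u4

end Pool.Agent.H.MP_321614_gt
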